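import Mathlib

/-!
# Exponential decay of decaying positive solutions of the radial equation
-/

open Filter Topology Set

namespace Pool.Agent.Helper32.Schr

theorem strictMonoOn_Ici {f f' : ℝ → ℝ} {R : ℝ} (hf : ∀ r, R ≤ r → HasDerivAt f (f' r) r)
    (h : ∀ r, R < r → 0 < f' r) : StrictMonoOn f (Ici R) := by
  apply strictMonoOn_of_deriv_pos (convex_Ici R)
  · exact fun r hr => (hf r hr).continuousAt.continuousWithinAt
  · intro r hr
    rw [interior_Ici] at hr
    rw [(hf r (le_of_lt hr)).deriv]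
    exact h r hr

theorem antitoneOn_Ici {f f' : ℝ → ℝ} {R : ℝ} (hf : ∀ r, R ≤ r → HasDerivAt f (f' r) r)
    (h : ∀ r, R < r → f' r ≤ 0) : AntitoneOn f (Ici R) := by
  apply antitoneOn_of_deriv_nonpos (convex_Ici R)
  · exact fun r hr => (hf r hr).continuousAt.continuousWithinAt
  · exact fun r hr => (hf r (interior_subset hr)).differentiableAt.differentiableWithinAt
  · intro r hr
    rw [interior_Ici] at hr
    rw [(hf r (le_of_lt hr)).deriv]
    exact h r hr

variable {m lam : ℝ} {y y1 P : ℝ → ℝ}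

theorem decay (hm : 0 < m) (hlam : 0 < lam) (hy : ∀ r, 0 < r → HasDerivAt y (y1 r) r)
    (hy1 : ∀ r, 0 < r → HasDerivAt y1 (-(m / r) * y1 r + (lam - P r) * y r) r)
    (hpos : ∀ r, 0 < r → 0 < y r) (hlim : Tendsto y atTop (𝓝 0)) (hP : Tendsto P atTop (𝓝 0)) :
    (∀ p : ℝ, Tendsto (fun r => r ^ p * y r) atTop (𝓝 0)) ∧
      (∀ p : ℝ, Tendsto (fun r => r ^ p * y1 r) atTop (𝓝 0)) := by
  -- step 1
  obtain ⟨R, hR0, hR⟩ : ∃ R : ℝ, 0 < R ∧ ∀ r, R ≤ r → P r ≤ lam / 2 := by
    have h1 := hP.eventually (ge_mem_nhds (show (0 : ℝ) < lam / 2 by linarith))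
    obtain ⟨R, hR⟩ := eventually_atTop.1 h1
    exact ⟨max R 1, by positivity, fun r hr => hR r ((le_max_left _ _).trans hr)⟩
  -- step 2
  have hg : ∀ r, R ≤ r → HasDerivAt (fun r => r ^ m * y1 r) (r ^ m * ((lam - P r) * y r)) r := by
    intro r hr
    have hr0 : 0 < r := hR0.trans_le hr
    have h1 := (Real.hasDerivAt_rpow_const (x := r) (p := m) (Or.inl hr0.ne')).mul (hy1 r hr0)
    refine h1.congr_deriv ?_
    rw [Real.rpow_sub_one hr0.ne']
    field_simp
    ring
  have hgmono : StrictMonoOn (fun r => r ^ m * y1 r) (Ici R) := by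
    refine strictMonoOn_Ici hg fun r hr => ?_
    have hr0 : 0 < r := hR0.trans hr
    have h1 := hR r hr.le
    have h2 : 0 < lam - P r := by linarith
    have h3 := hpos r hr0
    have h4 : 0 < r ^ m := Real.rpow_pos_of_pos hr0 m
    positivity
  -- step 3
  have hneg : ∀ r, R ≤ r → y1 r < 0 := by
    intro r₁ hr₁
    by_contra hcon
    push Not at hcon
    have hr₁0 : 0 < r₁ := hR0.trans_le hr₁
    have h1 : ∀ r, r₁ < r → 0 < y1 r := by
      intro r hr
      have h2 := hgmono (mem_Ici.2 hr₁) (mem_Ici.2 (hr₁.trans hr.le)) hr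
      have h3 : 0 ≤ r₁ ^ m * y1 r₁ := mul_nonneg (Real.rpow_pos_of_pos hr₁0 m).le hcon
      have h4 : 0 < r ^ m * y1 r := lt_of_le_of_lt h3 h2
      have h5 : 0 < r ^ m := Real.rpow_pos_of_pos (hr₁0.trans hr) m
      exact (pos_iff_pos_of_mul_pos h4).1 h5
    have h2 : StrictMonoOn y (Ici r₁) :=
      strictMonoOn_Ici (fun r hr => hy r (hr₁0.trans_le hr)) h1
    have h3 : y r₁ ≤ 0 := by
      refine ge_of_tendsto hlim ?_
      filter_upwards [eventually_ge_atTop r₁] with r hr
      exact h2.monotoneOn (mem_Ici.2 le_rfl) (mem_Ici.2 hr) hr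
    exact absurd (hpos r₁ hr₁0) (not_lt.2 h3)
  -- y1 → 0
  have hy1lim : Tendsto y1 atTop (𝓝 0) := by
    have h1 : Tendsto (fun r : ℝ => (R ^ m * y1 R) * r ^ (-m)) atTop (𝓝 0) := by
      have := (tendsto_rpow_neg_atTop hm).const_mul (R ^ m * y1 R)
      simpa using this
    refine tendsto_of_tendsto_of_tendsto_of_le_of_le' h1 tendsto_const_nhds ?_ ?_
    · filter_upwards [eventually_ge_atTop R] with r hr
      have hr0 : 0 < r := hR0.trans_le hr
      have h2 := hgmono.monotoneOn (mem_Ici.2 le_rfl) (mem_Ici.2 hr) hr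
      have h3 : 0 < r ^ m := Real.rpow_pos_of_pos hr0 m
      rw [Real.rpow_neg hr0.le, ← div_eq_mul_inv, div_le_iff₀ h3]
      linarith [mul_comm (r ^ m) (y1 r)]
    · filter_upwards [eventually_ge_atTop R] with r hr
      exact (hneg r hr).le
  -- step 4
  have hD : AntitoneOn (fun r => y1 r ^ 2 - lam / 2 * y r ^ 2) (Ici R) := by
    refine antitoneOn_Ici (f' := fun r => 2 * y1 r * (-(m / r) * y1 r + (lam - P r) * y r) -
      lam / 2 * (2 * y r * y1 r)) ?_ ?_
    · intro r hr
      have hr0 : 0 < r := hR0.trans_le hr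
      have h1 := ((hy1 r hr0).fun_pow 2).sub (((hy r hr0).fun_pow 2).const_mul (lam / 2))
      refine h1.congr_deriv ?_
      simp only [Nat.cast_ofNat]
      ring
    · intro r hr
      have hr0 : 0 < r := hR0.trans hr
      have h1 := hR r hr.le
      have h2 := hneg r hr.le
      have h3 := hpos r hr0
      have h4 : 0 ≤ (lam - 2 * P r) * (y r * (-y1 r)) :=
        mul_nonneg (by linarith) (mul_nonneg h3.le (by linarith))
      have h5 : 0 ≤ 2 * (m / r) * y1 r ^ 2 := by positivity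
      nlinarith
  have hDlim : Tendsto (fun r => y1 r ^ 2 - lam / 2 * y r ^ 2) atTop (𝓝 0) := by
    have := (hy1lim.pow 2).sub ((hlim.pow 2).const_mul (lam / 2))
    simpa using this
  have hD0 : ∀ r, R ≤ r → 0 ≤ y1 r ^ 2 - lam / 2 * y r ^ 2 := by
    intro r hr
    refine le_of_tendsto hDlim ?_
    filter_upwards [eventually_ge_atTop r] with s hs
    exact hD (mem_Ici.2 hr) (mem_Ici.2 (hr.trans hs)) hs
  -- step 5
  set κ : ℝ := Real.sqrt (lam / 2) with hκ
  have hκ2 : κ ^ 2 = lam / 2 := Real.sq_sqrt (by linarith)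
  have hκ0 : 0 < κ := Real.sqrt_pos.2 (by linarith)
  have h5 : ∀ r, R ≤ r → y1 r ≤ -(κ * y r) := by
    intro r hr
    have h1 := hD0 r hr
    have h2 := hneg r hr
    have h3 := hpos r (hR0.trans_le hr)
    have h4 : (κ * y r) ^ 2 ≤ (-y1 r) ^ 2 := by
      rw [mul_pow, hκ2, neg_sq]; linarith
    have h6 := abs_le_of_sq_le_sq' h4 (by linarith)
    linarith [h6.2]
  -- step 6
  have h6 : AntitoneOn (fun r => y r * Real.exp (κ * r)) (Ici R) := by
    refine antitoneOn_Ici (f' := fun r => y1 r * Real.exp (κ * r) +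
      y r * (Real.exp (κ * r) * κ)) ?_ ?_
    · intro r hr
      have hr0 : 0 < r := hR0.trans_le hr
      have h1 : HasDerivAt (fun r : ℝ => κ * r) κ r := by
        simpa using (hasDerivAt_id r).const_mul κ
      exact (hy r hr0).mul h1.exp
    · intro r hr
      have h1 := h5 r hr.le
      have h2 := Real.exp_pos (κ * r)
      have h3 : y1 r * Real.exp (κ * r) + y r * (Real.exp (κ * r) * κ) =
          Real.exp (κ * r) * (y1 r + κ * y r) := by ring
      rw [h3]
      exact mul_nonpos_of_nonneg_of_nonpos h2.le (by linarith)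
  set K : ℝ := y R * Real.exp (κ * R) with hK
  have hKpos : 0 < K := mul_pos (hpos R hR0) (Real.exp_pos _)
  have hyK : ∀ r, R ≤ r → y r ≤ K * Real.exp (-κ * r) := by
    intro r hr
    have h1 := h6 (mem_Ici.2 le_rfl) (mem_Ici.2 hr) hr
    have h2 := Real.exp_pos (-κ * r)
    have h3 : y r = y r * Real.exp (κ * r) * Real.exp (-κ * r) := by
      rw [mul_assoc, ← Real.exp_add]; simp
    rw [h3]
    exact mul_le_mul_of_nonneg_right h1 h2.le
  -- step 7
  have hy1K : ∀ r, R + 1 ≤ r → -y1 r ≤ K * Real.exp κ * Real.exp (-κ * r) := by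
    intro r hr
    have hr1 : R ≤ r - 1 := by linarith
    have hr10 : 0 < r - 1 := hR0.trans_le hr1
    obtain ⟨s, hs, hs'⟩ := exists_hasDerivAt_eq_slope y y1 (show r - 1 < r by linarith)
      (fun t ht => (hy t (hr10.trans_le ht.1)).continuousAt.continuousWithinAt)
      (fun t ht => hy t (hr10.trans ht.1))
    have h1 : y1 s = y r - y (r - 1) := by rw [hs']; ring_nf
    have hsR : R ≤ s := hr1.trans hs.1.le
    have hs0 : 0 < s := hR0.trans_le hsR
    have h2 := hgmono.monotoneOn (mem_Ici.2 hsR) (mem_Ici.2 (hsR.trans hs.2.le)) hs.2.le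
    have h3 : s ^ m ≤ r ^ m := Real.rpow_le_rpow hs0.le hs.2.le hm.le
    have h4 : 0 < r ^ m := Real.rpow_pos_of_pos (hs0.trans hs.2) m
    have h5 : -y1 r ≤ -y1 s := by
      have h6 : s ^ m * (-y1 s) ≤ r ^ m * (-y1 s) :=
        mul_le_mul_of_nonneg_right h3 (by linarith [hneg s hsR])
      have h2' : s ^ m * y1 s ≤ r ^ m * y1 r := h2
      have h7 : r ^ m * (-y1 r) ≤ r ^ m * (-y1 s) := by
        nlinarith
      exact le_of_mul_le_mul_left h7 h4
    have h8 : -y1 s ≤ y (r - 1) := by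
      rw [h1]; linarith [hpos r (hs0.trans hs.2)]
    have h9 := hyK (r - 1) hr1
    have h10 : Real.exp (-κ * (r - 1)) = Real.exp κ * Real.exp (-κ * r) := by
      rw [← Real.exp_add]; ring_nf
    rw [h10] at h9
    linarith
  -- conclusion
  have hexp : ∀ (p c : ℝ), Tendsto (fun r : ℝ => r ^ p * (c * Real.exp (-κ * r))) atTop (𝓝 0) := by
    intro p c
    have h1 := (tendsto_rpow_mul_exp_neg_mul_atTop_nhds_zero p κ hκ0).const_mul c
    rw [mul_zero] at h1
    refine h1.congr fun r => ?_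
    ring
  refine ⟨fun p => ?_, fun p => ?_⟩
  · refine tendsto_of_tendsto_of_tendsto_of_le_of_le' tendsto_const_nhds (hexp p K) ?_ ?_
    · filter_upwards [eventually_ge_atTop R] with r hr
      have hr0 : 0 < r := hR0.trans_le hr
      exact mul_nonneg (Real.rpow_pos_of_pos hr0 p).le (hpos r hr0).le
    · filter_upwards [eventually_ge_atTop R] with r hr
      have hr0 : 0 < r := hR0.trans_le hr
      exact mul_le_mul_of_nonneg_left (hyK r hr) (Real.rpow_pos_of_pos hr0 p).le
  · refine tendsto_of_tendsto_of_tendsto_of_le_of_le' (hexp p (-(K * Real.exp κ)))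
      tendsto_const_nhds ?_ ?_
    · filter_upwards [eventually_ge_atTop (R + 1)] with r hr
      have hr0 : 0 < r := by linarith
      refine mul_le_mul_of_nonneg_left ?_ (Real.rpow_pos_of_pos hr0 p).le
      have := hy1K r hr
      linarith
    · filter_upwards [eventually_ge_atTop R] with r hr
      have hr0 : 0 < r := hR0.trans_le hr
      exact mul_nonpos_of_nonneg_of_nonpos (Real.rpow_pos_of_pos hr0 p).le (hneg r hr).le

end Pool.Agent.Helper32.Schr
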