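import Mathlib

/-!
# The radial system: the two identities

`U, V` solve `U'' + (m/r) U' - λ U + (a U² + (1-a) V²) U = 0`,
`V'' + (m/r) V' - λ V + (b V² + (1-b) U²) V = 0` on `(0, ∞)`.
-/

open Filter Topology Set

namespace Pool.Agent.Helper32.Schr

/-- A pair of functions (with their derivatives) solving the radial system on `(0, ∞)`. -/
structure Sol (m lam a b : ℝ) (U U1 V V1 : ℝ → ℝ) : Prop where
  dU : ∀ r, 0 < r → HasDerivAt U (U1 r) r
  dV : ∀ r, 0 < r → HasDerivAt V (V1 r) r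
  dU1 : ∀ r, 0 < r → HasDerivAt U1
    (-(m / r) * U1 r + (lam - (a * U r ^ 2 + (1 - a) * V r ^ 2)) * U r) r
  dV1 : ∀ r, 0 < r → HasDerivAt V1
    (-(m / r) * V1 r + (lam - (b * V r ^ 2 + (1 - b) * U r ^ 2)) * V r) r
  Upos : ∀ r, 0 < r → 0 < U r
  Vpos : ∀ r, 0 < r → 0 < V r

theorem Sol.symm {m lam a b : ℝ} {U U1 V V1 : ℝ → ℝ} (h : Sol m lam a b U U1 V V1) :
    Sol m lam b a V V1 U U1 :=
  ⟨h.dV, h.dU, h.dV1, h.dU1, h.Vpos, h.Upos⟩

/-- The weight `r ^ (4m/3)`. -/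
noncomputable def wt (m r : ℝ) : ℝ := r ^ (4 * m / 3)

theorem wt_pos {m r : ℝ} (hr : 0 < r) : 0 < wt m r := Real.rpow_pos_of_pos hr _

theorem hasDerivAt_wt {m r : ℝ} (hr : 0 < r) : HasDerivAt (wt m) (4 * m / (3 * r) * wt m r) r := by
  have h := Real.hasDerivAt_rpow_const (x := r) (p := 4 * m / 3) (Or.inl hr.ne')
  refine h.congr_deriv ?_
  unfold wt
  rw [Real.rpow_sub_one hr.ne']
  field_simp

/-- `Λ = (1-b) U² + (1-a) V²`. -/
def LL (a b : ℝ) (U V : ℝ) : ℝ := (1 - b) * U ^ 2 + (1 - a) * V ^ 2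

/-- The quadratic part of the energy of one component, divided by the weight. -/
noncomputable def qe (m lam r u u1 : ℝ) : ℝ :=
  u1 ^ 2 / 2 + m / (3 * r) * (u * u1) + (-lam + m * (3 - m) / 9 / r ^ 2) * u ^ 2 / 2

/-- The Pohozaev-Yanagida functional of the system. -/
noncomputable def JJ (m lam a b : ℝ) (U U1 V V1 : ℝ → ℝ) (r : ℝ) : ℝ :=
  wt m r * ((1 - b) * qe m lam r (U r) (U1 r) + (1 - a) * qe m lam r (V r) (V1 r) +
    (a * (1 - b) * U r ^ 4 + b * (1 - a) * V r ^ 4 + 2 * (1 - a) * (1 - b) * (U r ^ 2 * V r ^ 2)) / 4)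

/-- `j = U' V - U V'`. -/
def jj (U U1 V V1 : ℝ → ℝ) (r : ℝ) : ℝ := U1 r * V r - U r * V1 r

/-- The numerator of `Z`, divided by the weight. -/
noncomputable def NN (m a b : ℝ) (U U1 V V1 : ℝ → ℝ) (r : ℝ) : ℝ :=
  (U1 r * V r - U r * V1 r) * ((V r * U1 r + U r * V1 r) / 2 + m / (3 * r) * (U r * V r)) +
    (a + b - 1) / 4 * (U r ^ 2 * V r ^ 2 * (U r ^ 2 - V r ^ 2))

/-- The comparison functional. -/
noncomputable def ZZ (m a b : ℝ) (U U1 V V1 : ℝ → ℝ) (r : ℝ) : ℝ :=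
  wt m r * NN m a b U U1 V V1 r / LL a b (U r) (V r)

theorem LL_pos {a b u v : ℝ} (ha : a < 1) (hb : b < 1) (hu : 0 < u) : 0 < LL a b u v := by
  unfold LL
  have h1 : 0 < (1 - b) * u ^ 2 := by have : 0 < 1 - b := by linarith
                                      positivity
  have h2 : 0 ≤ (1 - a) * v ^ 2 := mul_nonneg (by linarith) (sq_nonneg _)
  linarith

section identities

variable {m lam a b : ℝ} {U U1 V V1 : ℝ → ℝ}

theorem hasDerivAt_h {m r : ℝ} (hr : 0 < r) :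
    HasDerivAt (fun r : ℝ => m / (3 * r)) (-(m / (3 * r ^ 2))) r := by
  have hr0 : r ≠ 0 := hr.ne'
  have hid : HasDerivAt (fun r : ℝ => r) 1 r := hasDerivAt_id r
  have h5 := (hasDerivAt_const r m).fun_div (hid.const_mul 3) (mul_ne_zero three_ne_zero hr0)
  refine h5.congr_deriv ?_
  field_simp
  ring

/-- Derivative of the energy `qe`. -/
theorem hasDerivAt_qe {u u1 : ℝ → ℝ} {P r : ℝ} (hr : 0 < r) (hu : HasDerivAt u (u1 r) r)
    (hu1 : HasDerivAt u1 (-(m / r) * u1 r + (lam - P) * u r) r) :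
    HasDerivAt (fun r => qe m lam r (u r) (u1 r))
      (-(4 * m / (3 * r)) * qe m lam r (u r) (u1 r) - P * u r * u1 r - m / (3 * r) * P * u r ^ 2 +
        (-lam * m + m * (3 - m) / 9 * (2 * m - 3) / r ^ 2) / (3 * r) * u r ^ 2) r := by
  have hr0 : r ≠ 0 := hr.ne'
  have hid : HasDerivAt (fun r : ℝ => r) 1 r := hasDerivAt_id r
  have h3 := hasDerivAt_h (m := m) hr
  have h4 : HasDerivAt (fun r : ℝ => -lam + m * (3 - m) / 9 / r ^ 2)
      (-(2 * (m * (3 - m) / 9)) / r ^ 3) r := by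
    have h5 := ((hasDerivAt_const r (m * (3 - m) / 9)).fun_div (hid.fun_pow 2)
      (pow_ne_zero 2 hr0)).const_add (-lam)
    refine h5.congr_deriv ?_
    field_simp
    ring
  have h5 := ((hu1.fun_pow 2).div_const 2).add ((h3.mul (hu.mul hu1)))
  have h6 := (h4.mul (hu.fun_pow 2)).div_const 2
  have h7 := h5.add h6
  refine h7.congr_deriv ?_
  unfold qe
  simp only [Pi.mul_apply, Pi.add_apply, Nat.cast_ofNat]
  field_simp
  ring

theorem hasDerivAt_JJ (h : Sol m lam a b U U1 V V1) {r : ℝ} (hr : 0 < r) :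
    HasDerivAt (JJ m lam a b U U1 V V1)
      (wt m r * ((-lam * m + m * (3 - m) / 9 * (2 * m - 3) / r ^ 2) / (3 * r)) *
        LL a b (U r) (V r)) r := by
  have hr0 : r ≠ 0 := hr.ne'
  have hU := h.dU r hr
  have hV := h.dV r hr
  have h1 := hasDerivAt_qe (m := m) (lam := lam) (P := a * U r ^ 2 + (1 - a) * V r ^ 2) hr hU
    (h.dU1 r hr)
  have h2 := hasDerivAt_qe (m := m) (lam := lam) (P := b * V r ^ 2 + (1 - b) * U r ^ 2) hr hV
    (h.dV1 r hr)
  have h3 := (((hU.fun_pow 4).const_mul (a * (1 - b))).add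
    ((hV.fun_pow 4).const_mul (b * (1 - a)))).add
    (((hU.fun_pow 2).mul (hV.fun_pow 2)).const_mul (2 * (1 - a) * (1 - b)))
  have h4 := ((h1.const_mul (1 - b)).add (h2.const_mul (1 - a))).add (h3.div_const 4)
  have h5 := (hasDerivAt_wt (m := m) hr).mul h4
  refine h5.congr_deriv ?_
  unfold LL
  simp only [Pi.mul_apply, Pi.add_apply, Nat.cast_ofNat]
  field_simp
  ring

theorem hasDerivAt_jj (h : Sol m lam a b U U1 V V1) {r : ℝ} (hr : 0 < r) :
    HasDerivAt (jj U U1 V V1)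
      (-(m / r) * jj U U1 V V1 r - (a + b - 1) * (U r * V r * (U r ^ 2 - V r ^ 2))) r := by
  have h1 := ((h.dU1 r hr).mul (h.dV r hr)).sub ((h.dU r hr).mul (h.dV1 r hr))
  refine h1.congr_deriv ?_
  unfold jj
  ring

theorem hasDerivAt_NN (h : Sol m lam a b U U1 V V1) {r : ℝ} (hr : 0 < r) :
    HasDerivAt (NN m a b U U1 V V1)
      (-(4 * m / (3 * r)) * NN m a b U U1 V V1 r +
        (-2 * (U r * V r) * jj U U1 V V1 r) * (qe m lam r (V r) (V1 r) / V r ^ 2 +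
          V r ^ 2 / 2 * (b - (a + b - 1) / 2) + (1 - b) * U r ^ 2 / 2) * 1 +
        2 * NN m a b U U1 V V1 r * (V1 r / V r)) r := by
  have hr0 : r ≠ 0 := hr.ne'
  have hV0 : V r ≠ 0 := (h.Vpos r hr).ne'
  have hU := h.dU r hr
  have hV := h.dV r hr
  have hU1 := h.dU1 r hr
  have hV1 := h.dV1 r hr
  have hid : HasDerivAt (fun r : ℝ => r) 1 r := hasDerivAt_id r
  have h3 := hasDerivAt_h (m := m) hr
  have h4 := ((hU1.mul hV).sub (hU.mul hV1)).mul ((((hV.mul hU1).add (hU.mul hV1)).div_const 2).add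
    (h3.mul (hU.mul hV)))
  have h5 := (((hU.fun_pow 2).mul (hV.fun_pow 2)).mul ((hU.fun_pow 2).sub (hV.fun_pow 2))).const_mul
    ((a + b - 1) / 4)
  have h6 := h4.add h5
  refine h6.congr_deriv ?_
  unfold NN jj qe
  simp only [Pi.mul_apply, Pi.add_apply, Pi.sub_apply, Nat.cast_ofNat]
  field_simp
  ring

theorem hasDerivAt_LL (h : Sol m lam a b U U1 V V1) {r : ℝ} (hr : 0 < r) :
    HasDerivAt (fun r => LL a b (U r) (V r))
      (2 * (1 - b) * (U r * U1 r) + 2 * (1 - a) * (V r * V1 r)) r := by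
  have h1 := (((h.dU r hr).fun_pow 2).const_mul (1 - b)).add
    (((h.dV r hr).fun_pow 2).const_mul (1 - a))
  refine h1.congr_deriv ?_
  simp only [Nat.cast_ofNat]
  ring

/-- **Key identity.** -/
theorem hasDerivAt_ZZ (h : Sol m lam a b U U1 V V1) (ha : a < 1) (hb : b < 1) {r : ℝ}
    (hr : 0 < r) :
    HasDerivAt (ZZ m a b U U1 V V1)
      (-2 * (U r * V r) * jj U U1 V V1 r *
        (JJ m lam a b U U1 V V1 r / LL a b (U r) (V r) ^ 2 + wt m r / 4)) r := by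
  have hr0 : r ≠ 0 := hr.ne'
  have hV0 : V r ≠ 0 := (h.Vpos r hr).ne'
  have hL : LL a b (U r) (V r) ≠ 0 := (LL_pos ha hb (h.Upos r hr)).ne'
  have h1 := ((hasDerivAt_wt (m := m) hr).mul (hasDerivAt_NN h hr)).fun_div (hasDerivAt_LL h hr) hL
  refine h1.congr_deriv ?_
  have hL2 : LL a b (U r) (V r) = (1 - b) * U r ^ 2 + (1 - a) * V r ^ 2 := rfl
  unfold NN jj JJ qe
  simp only [Pi.mul_apply]
  generalize wt m r = A
  generalize hLL : LL a b (U r) (V r) = L at *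
  field_simp
  subst hL2
  ring

end identities

end Pool.Agent.Helper32.Schr
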