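import Mathlib
import Pool.Agent.Helper32.Schr.Ode
import Pool.Agent.Helper32.Schr.Decay

/-!
# The abstract contradiction argument
-/

open Filter Topology Set

namespace Pool.Agent.Helper32.Schr

theorem strictAntiOn_Ici {f f' : ℝ → ℝ} {R : ℝ} (hf : ∀ r, R ≤ r → HasDerivAt f (f' r) r)
    (h : ∀ r, R < r → f' r < 0) : StrictAntiOn f (Ici R) := by
  apply strictAntiOn_of_deriv_neg (convex_Ici R)
  · exact fun r hr => (hf r hr).continuousAt.continuousWithinAt
  · intro r hr
    rw [interior_Ici] at hr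
    rw [(hf r (le_of_lt hr)).deriv]
    exact h r hr

theorem strictAntiOn_Ioi {f f' : ℝ → ℝ} {R : ℝ} (hf : ∀ r, R < r → HasDerivAt f (f' r) r)
    (h : ∀ r, R < r → f' r < 0) : StrictAntiOn f (Ioi R) := by
  apply strictAntiOn_of_deriv_neg (convex_Ioi R)
  · exact fun r hr => (hf r hr).continuousAt.continuousWithinAt
  · intro r hr
    rw [interior_Ioi] at hr
    rw [(hf r hr).deriv]
    exact h r hr

theorem strictMonoOn_Ioo {f f' : ℝ → ℝ} {R T : ℝ} (hf : ∀ r, R < r → r < T → HasDerivAt f (f' r) r)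
    (h : ∀ r, R < r → r < T → 0 < f' r) : StrictMonoOn f (Ioo R T) := by
  apply strictMonoOn_of_deriv_pos (convex_Ioo R T)
  · exact fun r hr => (hf r hr.1 hr.2).continuousAt.continuousWithinAt
  · intro r hr
    rw [interior_Ioo] at hr
    rw [(hf r hr.1 hr.2).deriv]
    exact h r hr.1 hr.2

/-- a strictly decreasing function tending to `0` at infinity is positive -/
theorem pos_of_strictAntiOn {f : ℝ → ℝ} {R : ℝ} (hf : StrictAntiOn f (Ioi R))
    (hlim : Tendsto f atTop (𝓝 0)) : ∀ r, R < r → 0 < f r := by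
  intro r hr
  have h1 : f (r + 1) < f r := hf hr (mem_Ioi.2 (by linarith)) (by linarith)
  have h2 : 0 ≤ f (r + 1) := by
    refine le_of_tendsto hlim ?_
    filter_upwards [eventually_ge_atTop (r + 1)] with s hs
    exact hf.antitoneOn (mem_Ioi.2 (by linarith)) (mem_Ioi.2 (by linarith)) hs
  linarith

theorem J_pos_abs {m lam : ℝ} (hm : m = 1 ∨ m = 2) (hlam : 0 < lam) {J L : ℝ → ℝ}
    (hJ : ∀ r, 0 < r → HasDerivAt J
      (wt m r * ((-lam * m + m * (3 - m) / 9 * (2 * m - 3) / r ^ 2) / (3 * r)) * L r) r)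
    (hL : ∀ r, 0 < r → 0 < L r) (hinf : Tendsto J atTop (𝓝 0))
    (h0 : m = 2 → Tendsto J (𝓝[>] 0) (𝓝 0)) : ∀ r, 0 < r → 0 < J r := by
  rcases hm with rfl | rfl
  · apply pos_of_strictAntiOn _ hinf
    apply strictAntiOn_Ioi hJ
    intro r hr
    have h1 := wt_pos (m := 1) hr
    have h2 := hL r hr
    have h3 : (-lam * 1 + 1 * (3 - 1) / 9 * (2 * 1 - 3) / r ^ 2) / (3 * r) < 0 := by
      apply div_neg_of_neg_of_pos _ (by positivity)
      have h4 : 0 < 1 / r ^ 2 := by positivity
      have h5 : (-lam * 1 + 1 * (3 - 1) / 9 * (2 * 1 - 3) / r ^ 2) = -(lam + 2 / 9 * (1 / r ^ 2)) := by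
        ring
      rw [h5]
      have : 0 < lam + 2 / 9 * (1 / r ^ 2) := by positivity
      linarith
    exact mul_neg_of_neg_of_pos (mul_neg_of_pos_of_neg h1 h3) h2
  · -- `m = 2`
    set R : ℝ := 1 / (3 * Real.sqrt lam) with hR
    have hs : 0 < Real.sqrt lam := Real.sqrt_pos.2 hlam
    have hR0 : 0 < R := by positivity
    have hR2 : R ^ 2 * (9 * lam) = 1 := by
      rw [hR, div_pow, mul_pow, Real.sq_sqrt hlam.le]
      field_simp
      norm_num
    have hfac : ∀ r : ℝ, 0 < r → (-lam * 2 + 2 * (3 - 2) / 9 * (2 * 2 - 3) / r ^ 2) / (3 * r) =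
        2 / (27 * r ^ 3) * (1 - 9 * lam * r ^ 2) := by
      intro r hr
      field_simp
      ring
    have hRpos : ∀ r, R < r → 0 < J r := by
      apply pos_of_strictAntiOn _ hinf
      apply strictAntiOn_Ioi (fun r hr => hJ r (hR0.trans hr))
      intro r hr
      have hr0 := hR0.trans hr
      have h1 := wt_pos (m := 2) hr0
      have h2 := hL r hr0
      rw [hfac r hr0]
      have h3 : 1 - 9 * lam * r ^ 2 < 0 := by
        have : R ^ 2 < r ^ 2 := by
          apply pow_lt_pow_left₀ hr hR0.le; norm_num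
        nlinarith
      have h4 : 0 < 2 / (27 * r ^ 3) := by positivity
      exact mul_neg_of_neg_of_pos (mul_neg_of_pos_of_neg h1 (mul_neg_of_pos_of_neg h4 h3)) h2
    have hmono : StrictMonoOn J (Ioo 0 R) := by
      apply strictMonoOn_Ioo (fun r hr _ => hJ r hr)
      intro r hr hrR
      have h1 := wt_pos (m := 2) hr
      have h2 := hL r hr
      rw [hfac r hr]
      have h3 : 0 < 1 - 9 * lam * r ^ 2 := by
        have : r ^ 2 < R ^ 2 := by
          apply pow_lt_pow_left₀ hrR hr.le; norm_num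
        nlinarith
      have h4 : 0 < 2 / (27 * r ^ 3) := by positivity
      positivity
    have hlow : ∀ r, 0 < r → r < R → 0 < J r := by
      intro r hr hrR
      have h1 : J (r / 2) < J r := hmono ⟨by linarith, by linarith⟩ ⟨hr, hrR⟩ (by linarith)
      have h2 : 0 ≤ J (r / 2) := by
        refine le_of_tendsto (h0 rfl) ?_
        have h3 : ∀ᶠ s : ℝ in 𝓝[>] 0, s ∈ Ioo (0 : ℝ) (r / 2) :=
          Ioo_mem_nhdsGT (by linarith)
        filter_upwards [h3] with s hs
        exact (hmono ⟨hs.1, by linarith [hs.2]⟩ ⟨by linarith, by linarith⟩ hs.2).le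
      linarith
    intro r hr
    rcases lt_trichotomy r R with h | h | h
    · exact hlow r hr h
    · -- at `R`: `J` is antitone on `[R, ∞)`
      have h1 : StrictAntiOn J (Ici R) := by
        apply strictAntiOn_Ici (fun r hr => hJ r (hR0.trans_le hr))
        intro r hr
        have hr0 := hR0.trans hr
        have h1 := wt_pos (m := 2) hr0
        have h2 := hL r hr0
        rw [hfac r hr0]
        have h3 : 1 - 9 * lam * r ^ 2 < 0 := by
          have : R ^ 2 < r ^ 2 := by
            apply pow_lt_pow_left₀ hr hR0.le; norm_num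
          nlinarith
        have h4 : 0 < 2 / (27 * r ^ 3) := by positivity
        exact mul_neg_of_neg_of_pos (mul_neg_of_pos_of_neg h1 (mul_neg_of_pos_of_neg h4 h3)) h2
      have h2 := h1 (mem_Ici.2 le_rfl) (mem_Ici.2 (by linarith : R ≤ R + 1)) (by linarith)
      have h3 := hRpos (R + 1) (by linarith)
      rw [h]
      linarith
    · exact hRpos r h

/-- The contradiction argument. -/
theorem no_cross_abs {m c : ℝ} (hc : 0 < c) {U V j Z p : ℝ → ℝ} (hU : ∀ r, 0 < r → 0 < U r)
    (hV : ∀ r, 0 < r → 0 < V r)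
    (hq : ∀ r, 0 < r → HasDerivAt (fun r => U r / V r) (j r / V r ^ 2) r)
    (hF : ∀ r, 0 < r → HasDerivAt (fun r => r ^ m * j r)
      (-c * (r ^ m * (U r * V r * (U r ^ 2 - V r ^ 2)))) r)
    (hFinf : Tendsto (fun r => r ^ m * j r) atTop (𝓝 0))
    (hjc : ∀ r, 0 < r → ContinuousAt j r)
    (hZ : ∀ r, 0 < r → HasDerivAt Z (-(p r) * j r) r) (hp : ∀ r, 0 < r → 0 < p r)
    (hZinf : Tendsto Z atTop (𝓝 0)) (hZ0 : Tendsto Z (𝓝[>] 0) (𝓝 0))
    (hsign : ∀ r, 0 < r → j r = 0 → U r < V r → Z r < 0) {R : ℝ} (hR0 : 0 < R)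
    (hR : ∀ r, R < r → V r < U r) : False := by
  have hFd : ∀ r, 0 < r → V r < U r → -c * (r ^ m * (U r * V r * (U r ^ 2 - V r ^ 2))) < 0 := by
    intro r hr hVU
    have h1 := hU r hr
    have h2 := hV r hr
    have h3 : 0 < r ^ m := Real.rpow_pos_of_pos hr m
    have h4 : 0 < U r ^ 2 - V r ^ 2 := by nlinarith
    have h5 : 0 < c * (r ^ m * (U r * V r * (U r ^ 2 - V r ^ 2))) := by positivity
    linarith
  have hjpos : ∀ r, R < r → 0 < j r := by
    have h1 : ∀ r, R < r → 0 < r ^ m * j r := by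
      apply pos_of_strictAntiOn _ hFinf
      exact strictAntiOn_Ioi (fun r hr => hF r (hR0.trans hr))
        (fun r hr => hFd r (hR0.trans hr) (hR r hr))
    intro r hr
    exact (pos_iff_pos_of_mul_pos (h1 r hr)).1 (Real.rpow_pos_of_pos (hR0.trans hr) m)
  by_cases hS : ∀ r, 0 < r → 0 < j r
  · -- no zero of `j`
    have hanti : StrictAntiOn Z (Ioi 0) := strictAntiOn_Ioi hZ (fun r hr => by
      have := mul_pos (hp r hr) (hS r hr); linarith)
    have h1 := pos_of_strictAntiOn hanti hZinf 1 one_pos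
    have h2 : Z 1 ≤ 0 := by
      refine ge_of_tendsto hZ0 ?_
      have h3 : ∀ᶠ s : ℝ in 𝓝[>] 0, s ∈ Ioo (0 : ℝ) 1 := Ioo_mem_nhdsGT one_pos
      filter_upwards [h3] with s hs
      exact (hanti hs.1 (mem_Ioi.2 one_pos) hs.2).le
    linarith
  · push Not at hS
    set S : Set ℝ := {r | 0 < r ∧ j r ≤ 0} with hSdef
    have hSne : S.Nonempty := by
      obtain ⟨r, hr, hr'⟩ := hS
      exact ⟨r, hr, hr'⟩
    have hSbdd : BddAbove S := by
      refine ⟨R, fun r hr => ?_⟩
      by_contra hcon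
      push Not at hcon
      exact absurd (hjpos r hcon) (not_lt.2 hr.2)
    set r₀ : ℝ := sSup S with hr₀
    have hr₀0 : 0 < r₀ := by
      obtain ⟨r, hr⟩ := hSne
      exact hr.1.trans_le (le_csSup hSbdd hr)
    have hafter : ∀ r, r₀ < r → 0 < j r := by
      intro r hr
      by_contra hcon
      push Not at hcon
      exact absurd (le_csSup hSbdd ⟨hr₀0.trans hr, hcon⟩) (not_le.2 hr)
    have hj0 : j r₀ = 0 := by
      apply le_antisymm
      · by_contra hcon
        push Not at hcon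
        have h1 : ∀ᶠ s in 𝓝 r₀, 0 < j s := (hjc r₀ hr₀0).eventually (lt_mem_nhds hcon)
        obtain ⟨ε, hε, hball⟩ := Metric.eventually_nhds_iff.1 h1
        obtain ⟨s, hs, hs'⟩ := exists_lt_of_lt_csSup hSne (show r₀ - ε < sSup S by rw [← hr₀]; linarith)
        have h2 : s ≤ r₀ := le_csSup hSbdd hs
        have h3 : 0 < j s := hball (by rw [Real.dist_eq, abs_lt]; constructor <;> linarith)
        exact absurd h3 (not_lt.2 hs.2)
      · have h1 : Tendsto j (𝓝[>] r₀) (𝓝 (j r₀)) := (hjc r₀ hr₀0).tendsto.mono_left nhdsWithin_le_nhds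
        refine ge_of_tendsto h1 ?_
        filter_upwards [self_mem_nhdsWithin] with s hs
        exact (hafter s hs).le
    have hUV : U r₀ < V r₀ := by
      by_contra hcon
      push Not at hcon
      have hqmono : StrictMonoOn (fun r => U r / V r) (Ici r₀) := by
        refine strictMonoOn_Ici (fun r hr => hq r (hr₀0.trans_le hr)) (fun r hr => ?_)
        have h1 := hafter r hr
        have h2 := hV r (hr₀0.trans hr)
        positivity
      have hUV' : ∀ r, r₀ < r → V r < U r := by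
        intro r hr
        have h1 : U r₀ / V r₀ < U r / V r := hqmono (mem_Ici.2 le_rfl) (mem_Ici.2 hr.le) hr
        have h2 : 1 ≤ U r₀ / V r₀ := by rw [le_div_iff₀ (hV r₀ hr₀0)]; linarith
        have h3 : 1 < U r / V r := lt_of_le_of_lt h2 h1
        rw [lt_div_iff₀ (hV r (hr₀0.trans hr))] at h3
        linarith
      have h1 : StrictAntiOn (fun r => r ^ m * j r) (Ici r₀) := by
        refine strictAntiOn_Ici (fun r hr => hF r (hr₀0.trans_le hr)) (fun r hr => ?_)
        exact hFd r (hr₀0.trans hr) (hUV' r hr)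
      have h2 : (r₀ + 1) ^ m * j (r₀ + 1) < r₀ ^ m * j r₀ :=
        h1 (mem_Ici.2 le_rfl) (mem_Ici.2 (by linarith : r₀ ≤ r₀ + 1)) (by linarith)
      rw [hj0, mul_zero] at h2
      have h3 := mul_pos (Real.rpow_pos_of_pos (by linarith : (0 : ℝ) < r₀ + 1) m)
        (hafter (r₀ + 1) (by linarith))
      linarith
    have hZr₀ := hsign r₀ hr₀0 hj0 hUV
    have hanti : StrictAntiOn Z (Ici r₀) := by
      refine strictAntiOn_Ici (fun r hr => hZ r (hr₀0.trans_le hr)) (fun r hr => ?_)
      have := mul_pos (hp r (hr₀0.trans hr)) (hafter r hr)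
      linarith
    have h1 : 0 ≤ Z r₀ := by
      refine le_of_tendsto hZinf ?_
      filter_upwards [eventually_ge_atTop r₀] with s hs
      exact hanti.antitoneOn (mem_Ici.2 le_rfl) (mem_Ici.2 hs) hs
    linarith

end Pool.Agent.Helper32.Schr
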