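import Mathlib
import Pool.Agent.Helper32.Schr.Core

/-!
# Uniqueness for the radial system
-/

open Filter Topology Set

namespace Pool.Agent.Helper32.Schr

/-- Decaying radial solutions, bounded near the origin. -/
structure Good (m lam a b : ℝ) (U U1 V V1 : ℝ → ℝ) : Prop extends Sol m lam a b U U1 V V1 where
  Ulim : Tendsto U atTop (𝓝 0)
  Vlim : Tendsto V atTop (𝓝 0)
  bdd : ∃ K, ∀ r, 0 < r → r ≤ 1 → |U r| ≤ K ∧ |U1 r| ≤ K ∧ |V r| ≤ K ∧ |V1 r| ≤ K
  low : ∃ δ, 0 < δ ∧ ∀ r, 0 < r → r ≤ 1 → δ ≤ U r ∧ δ ≤ V r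

theorem Good.symm {m lam a b : ℝ} {U U1 V V1 : ℝ → ℝ} (h : Good m lam a b U U1 V V1) :
    Good m lam b a V V1 U U1 := by
  obtain ⟨K, hK⟩ := h.bdd
  obtain ⟨δ, hδ, hδ'⟩ := h.low
  exact ⟨h.toSol.symm, h.Vlim, h.Ulim, ⟨K, fun r h1 h2 => ⟨(hK r h1 h2).2.2.1, (hK r h1 h2).2.2.2,
    (hK r h1 h2).1, (hK r h1 h2).2.1⟩⟩, ⟨δ, hδ, fun r h1 h2 => (hδ' r h1 h2).symm⟩⟩

/-- a power times a bounded function tends to zero at the origin -/
theorem pow_mul_bdd {q K : ℝ} (hq : 0 < q) {g : ℝ → ℝ} (hg : ∀ r, 0 < r → r ≤ 1 → |g r| ≤ K) :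
    Tendsto (fun r => r ^ q * g r) (𝓝[>] 0) (𝓝 0) := by
  have h1 : Tendsto (fun r : ℝ => r ^ q * K) (𝓝[>] 0) (𝓝 0) := by
    have h2 : Tendsto (fun r : ℝ => r ^ q) (𝓝 0) (𝓝 0) := by
      have := (Real.continuousAt_rpow_const 0 q (Or.inr hq.le)).tendsto
      rwa [Real.zero_rpow hq.ne'] at this
    have h3 := (h2.mono_left (nhdsWithin_le_nhds (s := Ioi 0))).mul_const K
    simpa using h3
  refine squeeze_zero_norm' ?_ h1
  have h3 : ∀ᶠ s : ℝ in 𝓝[>] 0, s ∈ Ioo (0 : ℝ) 1 := Ioo_mem_nhdsGT one_pos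
  filter_upwards [h3] with s hs
  rw [norm_mul, Real.norm_eq_abs, Real.norm_eq_abs, abs_of_pos (Real.rpow_pos_of_pos hs.1 q)]
  exact mul_le_mul_of_nonneg_left (hg s hs.1 hs.2.le) (Real.rpow_pos_of_pos hs.1 q).le

/-- the general quadratic-quartic expression of one component -/
noncomputable def gen (α β γ δ ε r u u1 : ℝ) : ℝ :=
  α * u1 ^ 2 + β / r * (u * u1) + γ * u ^ 2 + δ / r ^ 2 * u ^ 2 + ε * u ^ 4

theorem gen_inf {m α β γ δ ε : ℝ} {u u1 : ℝ → ℝ} (hu : ∀ p : ℝ, Tendsto (fun r => r ^ p * u r) atTop (𝓝 0))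
    (hu1 : ∀ p : ℝ, Tendsto (fun r => r ^ p * u1 r) atTop (𝓝 0)) :
    Tendsto (fun r => wt m r * gen α β γ δ ε r (u r) (u1 r)) atTop (𝓝 0) := by
  have hu0 : Tendsto u atTop (𝓝 0) := by simpa using hu 0
  have hu10 : Tendsto u1 atTop (𝓝 0) := by simpa using hu1 0
  have h1 := ((hu1 (4 * m / 3)).mul hu10).const_mul α
  have h2 := ((hu (4 * m / 3 - 1)).mul hu10).const_mul β
  have h3 := ((hu (4 * m / 3)).mul hu0).const_mul γ
  have h4 := ((hu (4 * m / 3 - 1 - 1)).mul hu0).const_mul δ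
  have h5 := ((hu (4 * m / 3)).mul (hu0.pow 3)).const_mul ε
  have h6 := (((h1.add h2).add h3).add h4).add h5
  simp only [mul_zero, add_zero, zero_mul] at h6
  refine h6.congr' ?_
  filter_upwards [eventually_gt_atTop 0] with r hr
  unfold wt gen
  rw [Real.rpow_sub_one hr.ne' (4 * m / 3 - 1), Real.rpow_sub_one hr.ne' (4 * m / 3)]
  field_simp

theorem gen_zero {m α β γ δ ε K : ℝ} {u u1 : ℝ → ℝ} (hm : m = 1 ∨ m = 2) (hδ : δ = 0 ∨ m = 2)
    (hu : ∀ r, 0 < r → r ≤ 1 → |u r| ≤ K) (hu1 : ∀ r, 0 < r → r ≤ 1 → |u1 r| ≤ K) :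
    Tendsto (fun r => wt m r * gen α β γ δ ε r (u r) (u1 r)) (𝓝[>] 0) (𝓝 0) := by
  have hK : 0 ≤ K := (abs_nonneg _).trans (hu 1 one_pos le_rfl)
  have hq0 : 0 < 4 * m / 3 := by rcases hm with rfl | rfl <;> norm_num
  have hq1 : 0 < 4 * m / 3 - 1 := by rcases hm with rfl | rfl <;> norm_num
  have hb : ∀ (f g : ℝ → ℝ) (A B : ℝ), (∀ r, 0 < r → r ≤ 1 → |f r| ≤ A) →
      (∀ r, 0 < r → r ≤ 1 → |g r| ≤ B) → ∀ r, 0 < r → r ≤ 1 → |f r * g r| ≤ A * B := by
    intro f g A B hf hg r h1 h2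
    rw [abs_mul]
    exact mul_le_mul (hf r h1 h2) (hg r h1 h2) (abs_nonneg _) ((abs_nonneg _).trans (hf r h1 h2))
  have h1 := (pow_mul_bdd hq0 (hb _ _ _ _ hu1 hu1)).const_mul α
  have h2 := (pow_mul_bdd hq1 (hb _ _ _ _ hu hu1)).const_mul β
  have h3 := (pow_mul_bdd hq0 (hb _ _ _ _ hu hu)).const_mul γ
  have h5 := (pow_mul_bdd hq0 (hb _ _ _ _ (hb _ _ _ _ hu hu) (hb _ _ _ _ hu hu))).const_mul ε
  have h4 : Tendsto (fun r => δ * (r ^ (4 * m / 3 - 1 - 1) * (u r * u r))) (𝓝[>] 0) (𝓝 0) := by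
    rcases hδ with rfl | rfl
    · simp
    · have hq2 : (0 : ℝ) < 4 * 2 / 3 - 1 - 1 := by norm_num
      have := (pow_mul_bdd hq2 (hb _ _ _ _ hu hu)).const_mul δ
      simpa using this
  have h6 := (((h1.add h2).add h3).add h4).add h5
  simp only [mul_zero, add_zero] at h6
  refine h6.congr' ?_
  filter_upwards [self_mem_nhdsWithin] with r hr
  have hr0 : (0 : ℝ) < r := hr
  unfold wt gen
  rw [Real.rpow_sub_one hr0.ne' (4 * m / 3 - 1), Real.rpow_sub_one hr0.ne' (4 * m / 3)]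
  field_simp

section pair

variable {m lam a b : ℝ} {U U1 V V1 : ℝ → ℝ}

theorem Good.decayU (h : Good m lam a b U U1 V V1) (hm : 0 < m) (hlam : 0 < lam) :
    (∀ p : ℝ, Tendsto (fun r => r ^ p * U r) atTop (𝓝 0)) ∧
      (∀ p : ℝ, Tendsto (fun r => r ^ p * U1 r) atTop (𝓝 0)) := by
  refine decay hm hlam h.dU h.dU1 h.Upos h.Ulim (P := fun r => a * U r ^ 2 + (1 - a) * V r ^ 2) ?_
  have := ((h.Ulim.pow 2).const_mul a).add ((h.Vlim.pow 2).const_mul (1 - a))
  simpa using this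

theorem Good.decayV (h : Good m lam a b U U1 V V1) (hm : 0 < m) (hlam : 0 < lam) :
    (∀ p : ℝ, Tendsto (fun r => r ^ p * V r) atTop (𝓝 0)) ∧
      (∀ p : ℝ, Tendsto (fun r => r ^ p * V1 r) atTop (𝓝 0)) :=
  h.symm.decayU hm hlam

theorem Good.flux_inf (h : Good m lam a b U U1 V V1) (hm : 0 < m) (hlam : 0 < lam) :
    Tendsto (fun r => r ^ m * jj U U1 V V1 r) atTop (𝓝 0) := by
  have h1 := ((h.decayU hm hlam).2 m).mul h.Vlim
  have h2 := ((h.decayU hm hlam).1 m).mul (by simpa using (h.decayV hm hlam).2 0)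
  have h3 := h1.sub h2
  simp only [mul_zero, sub_zero] at h3
  refine h3.congr fun r => ?_
  unfold jj
  ring

theorem Good.flux_deriv (h : Good m lam a b U U1 V V1) {r : ℝ} (hr : 0 < r) :
    HasDerivAt (fun r => r ^ m * jj U U1 V V1 r)
      (-(a + b - 1) * (r ^ m * (U r * V r * (U r ^ 2 - V r ^ 2)))) r := by
  have h1 := (Real.hasDerivAt_rpow_const (x := r) (p := m) (Or.inl hr.ne')).mul
    (hasDerivAt_jj h.toSol hr)
  refine h1.congr_deriv ?_
  rw [Real.rpow_sub_one hr.ne']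
  field_simp
  ring

theorem Good.quot_deriv (h : Good m lam a b U U1 V V1) {r : ℝ} (hr : 0 < r) :
    HasDerivAt (fun r => U r / V r) (jj U U1 V V1 r / V r ^ 2) r := by
  have h1 := (h.dU r hr).fun_div (h.dV r hr) (h.Vpos r hr).ne'
  exact h1

theorem NN_eq (m a b : ℝ) (U U1 V V1 : ℝ → ℝ) (r : ℝ) :
    NN m a b U U1 V V1 r = V r ^ 2 * gen (1 / 2) (m / 3) 0 0 ((a + b - 1) / 4) r (U r) (U1 r) -
      U r ^ 2 * gen (1 / 2) (m / 3) 0 0 ((a + b - 1) / 4) r (V r) (V1 r) := by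
  unfold NN gen
  by_cases hr : r = 0
  · subst hr; simp; ring
  · field_simp
    ring

/-- In the last interval `U > V` is impossible (coupled system). -/
theorem Good.no_cross (h : Good m lam a b U U1 V V1) (hm : m = 1 ∨ m = 2) (hlam : 0 < lam)
    (ha : a < 1) (hb : b < 1) (hc : 0 < a + b - 1) {R : ℝ} (hR0 : 0 < R)
    (hR : ∀ r, R < r → V r < U r) : False := by
  have hm0 : 0 < m := by rcases hm with rfl | rfl <;> norm_num
  obtain ⟨K, hK⟩ := h.bdd
  have hdU := h.decayU hm0 hlam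
  have hdV := h.decayV hm0 hlam
  -- `J > 0`
  have hJrw : ∀ r, 0 < r → JJ m lam a b U U1 V V1 r =
      (1 - b) * (wt m r * gen (1 / 2) (m / 3) (-lam / 2) (m * (3 - m) / 18) (a / 4) r (U r) (U1 r)) +
      (1 - a) * (wt m r * gen (1 / 2) (m / 3) (-lam / 2) (m * (3 - m) / 18) (b / 4) r (V r) (V1 r)) +
      (1 - a) * (1 - b) / 2 * ((wt m r * gen 0 0 1 0 0 r (U r) (U1 r)) * V r ^ 2) := by
    intro r hr
    unfold JJ gen qe
    field_simp
    ring
  have hJ : ∀ r, 0 < r → 0 < JJ m lam a b U U1 V V1 r := by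
    refine J_pos_abs hm hlam (L := fun r => LL a b (U r) (V r))
      (fun r hr => hasDerivAt_JJ h.toSol hr) (fun r hr => LL_pos ha hb (h.Upos r hr)) ?_ ?_
    · have h1 := ((gen_inf (m := m) (α := 1 / 2) (β := m / 3) (γ := -lam / 2)
        (δ := m * (3 - m) / 18) (ε := a / 4) hdU.1 hdU.2).const_mul (1 - b)).add
        ((gen_inf (m := m) (α := 1 / 2) (β := m / 3) (γ := -lam / 2)
        (δ := m * (3 - m) / 18) (ε := b / 4) hdV.1 hdV.2).const_mul (1 - a))
      have h2 := ((gen_inf (m := m) (α := 0) (β := 0) (γ := 1) (δ := 0) (ε := 0) hdU.1 hdU.2).mul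
        (h.Vlim.pow 2)).const_mul ((1 - a) * (1 - b) / 2)
      have h3 := h1.add h2
      simp only [mul_zero, add_zero, zero_mul] at h3
      refine h3.congr' ?_
      filter_upwards [eventually_gt_atTop 0] with r hr
      exact (hJrw r hr).symm
    · rintro rfl
      have hUK := fun r h1 h2 => (hK r h1 h2).1
      have hU1K := fun r h1 h2 => (hK r h1 h2).2.1
      have hVK := fun r h1 h2 => (hK r h1 h2).2.2.1
      have hV1K := fun r h1 h2 => (hK r h1 h2).2.2.2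
      have h1 := ((gen_zero (m := 2) (α := 1 / 2) (β := 2 / 3) (γ := -lam / 2)
        (δ := 2 * (3 - 2) / 18) (ε := a / 4) hm (Or.inr rfl) hUK hU1K).const_mul (1 - b)).add
        ((gen_zero (m := 2) (α := 1 / 2) (β := 2 / 3) (γ := -lam / 2)
        (δ := 2 * (3 - 2) / 18) (ε := b / 4) hm (Or.inr rfl) hVK hV1K).const_mul (1 - a))
      have hK0 : 0 ≤ K := (abs_nonneg _).trans (hUK 1 one_pos le_rfl)
      have h4 : Tendsto (fun r => wt 2 r * gen 0 0 1 0 0 r (U r) (U1 r) * V r ^ 2) (𝓝[>] 0) (𝓝 0) := by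
        have h5 : (0 : ℝ) < 4 * 2 / 3 := by norm_num
        have h6 := pow_mul_bdd (q := 4 * 2 / 3) (K := K ^ 2 * K ^ 2) (g := fun r => U r ^ 2 * V r ^ 2)
          h5 (by
            intro r h1 h2
            rw [abs_mul, abs_pow, abs_pow]
            exact mul_le_mul (pow_le_pow_left₀ (abs_nonneg _) (hUK r h1 h2) 2)
              (pow_le_pow_left₀ (abs_nonneg _) (hVK r h1 h2) 2) (by positivity) (by positivity))
        refine h6.congr fun r => ?_
        unfold wt gen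
        ring
      have h2 := h4.const_mul ((1 - a) * (1 - b) / 2)
      have h3 := h1.add h2
      simp only [mul_zero, add_zero] at h3
      refine h3.congr' ?_
      filter_upwards [self_mem_nhdsWithin] with r hr
      exact (hJrw r hr).symm
  -- bound of `Z`
  have hZb : ∀ r, 0 < r → ‖ZZ m a b U U1 V V1 r‖ ≤
      |wt m r * gen (1 / 2) (m / 3) 0 0 ((a + b - 1) / 4) r (U r) (U1 r)| * (1 - a)⁻¹ +
      |wt m r * gen (1 / 2) (m / 3) 0 0 ((a + b - 1) / 4) r (V r) (V1 r)| * (1 - b)⁻¹ := by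
    intro r hr
    have hL := LL_pos (v := V r) ha hb (h.Upos r hr)
    have h1 : ZZ m a b U U1 V V1 r =
        (wt m r * gen (1 / 2) (m / 3) 0 0 ((a + b - 1) / 4) r (U r) (U1 r)) *
          (V r ^ 2 / LL a b (U r) (V r)) -
        (wt m r * gen (1 / 2) (m / 3) 0 0 ((a + b - 1) / 4) r (V r) (V1 r)) *
          (U r ^ 2 / LL a b (U r) (V r)) := by
      unfold ZZ
      rw [NN_eq]
      ring
    have ha' : 0 < 1 - a := by linarith
    have hb' : 0 < 1 - b := by linarith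
    have h2 : V r ^ 2 / LL a b (U r) (V r) ≤ (1 - a)⁻¹ := by
      rw [div_le_iff₀ hL, inv_mul_eq_div, le_div_iff₀ ha']
      unfold LL
      have : 0 ≤ (1 - b) * U r ^ 2 := by positivity
      linarith
    have h3 : U r ^ 2 / LL a b (U r) (V r) ≤ (1 - b)⁻¹ := by
      rw [div_le_iff₀ hL, inv_mul_eq_div, le_div_iff₀ hb']
      unfold LL
      have : 0 ≤ (1 - a) * V r ^ 2 := by positivity
      linarith
    have h4 : 0 ≤ V r ^ 2 / LL a b (U r) (V r) := by positivity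
    have h5 : 0 ≤ U r ^ 2 / LL a b (U r) (V r) := by positivity
    rw [Real.norm_eq_abs, h1]
    refine (abs_sub _ _).trans ?_
    rw [abs_mul _ (V r ^ 2 / LL a b (U r) (V r)), abs_mul _ (U r ^ 2 / LL a b (U r) (V r)),
      abs_of_nonneg h4, abs_of_nonneg h5]
    exact add_le_add (mul_le_mul_of_nonneg_left h2 (abs_nonneg _))
      (mul_le_mul_of_nonneg_left h3 (abs_nonneg _))
  have hZinf : Tendsto (ZZ m a b U U1 V V1) atTop (𝓝 0) := by
    have h1 := ((gen_inf (m := m) (α := 1 / 2) (β := m / 3) (γ := 0) (δ := 0)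
      (ε := (a + b - 1) / 4) hdU.1 hdU.2).abs.mul_const (1 - a)⁻¹).add
      ((gen_inf (m := m) (α := 1 / 2) (β := m / 3) (γ := 0) (δ := 0)
      (ε := (a + b - 1) / 4) hdV.1 hdV.2).abs.mul_const (1 - b)⁻¹)
    simp only [abs_zero, zero_mul, add_zero] at h1
    refine squeeze_zero_norm' ?_ h1
    filter_upwards [eventually_gt_atTop 0] with r hr
    exact hZb r hr
  have hZ0 : Tendsto (ZZ m a b U U1 V V1) (𝓝[>] 0) (𝓝 0) := by
    have hUK := fun r h1 h2 => (hK r h1 h2).1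
    have hU1K := fun r h1 h2 => (hK r h1 h2).2.1
    have hVK := fun r h1 h2 => (hK r h1 h2).2.2.1
    have hV1K := fun r h1 h2 => (hK r h1 h2).2.2.2
    have h1 := ((gen_zero (m := m) (α := 1 / 2) (β := m / 3) (γ := 0) (δ := 0)
      (ε := (a + b - 1) / 4) hm (Or.inl rfl) hUK hU1K).abs.mul_const (1 - a)⁻¹).add
      ((gen_zero (m := m) (α := 1 / 2) (β := m / 3) (γ := 0) (δ := 0)
      (ε := (a + b - 1) / 4) hm (Or.inl rfl) hVK hV1K).abs.mul_const (1 - b)⁻¹)
    simp only [abs_zero, zero_mul, add_zero] at h1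
    refine squeeze_zero_norm' ?_ h1
    filter_upwards [self_mem_nhdsWithin] with r hr
    exact hZb r hr
  refine no_cross_abs (m := m) hc h.Upos h.Vpos (fun r hr => h.quot_deriv hr)
    (fun r hr => h.flux_deriv hr) (h.flux_inf hm0 hlam)
    (fun r hr => (hasDerivAt_jj h.toSol hr).continuousAt)
    (p := fun r => 2 * (U r * V r) *
      (JJ m lam a b U U1 V V1 r / LL a b (U r) (V r) ^ 2 + wt m r / 4))
    (fun r hr => (hasDerivAt_ZZ h.toSol ha hb hr).congr_deriv (by ring)) ?_ hZinf hZ0 ?_ hR0 hR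
  · intro r hr
    have h1 := hJ r hr
    have h2 := LL_pos (v := V r) ha hb (h.Upos r hr)
    have h3 := h.Upos r hr
    have h4 := h.Vpos r hr
    have h5 := wt_pos (m := m) hr
    positivity
  · intro r hr hj hlt
    have h2 := LL_pos (v := V r) ha hb (h.Upos r hr)
    have h3 := h.Upos r hr
    have h4 := h.Vpos r hr
    have h5 := wt_pos (m := m) hr
    unfold ZZ
    apply div_neg_of_neg_of_pos _ h2
    apply mul_neg_of_pos_of_neg h5
    unfold NN
    have hj' : U1 r * V r - U r * V1 r = 0 := hj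
    rw [hj', zero_mul, zero_add]
    have h6 : U r ^ 2 - V r ^ 2 < 0 := by nlinarith
    have h7 : 0 < U r ^ 2 * V r ^ 2 := by positivity
    have h8 : 0 < (a + b - 1) / 4 := by linarith
    exact mul_neg_of_pos_of_neg h8 (mul_neg_of_pos_of_neg h7 h6)

/-- In the last interval `U > V` is impossible (two solutions of the scalar equation). -/
theorem Good.no_cross_scalar (h : Good m lam 1 1 U U1 V V1) (hm : m = 1 ∨ m = 2) (hlam : 0 < lam)
    {R : ℝ} (hR0 : 0 < R) (hR : ∀ r, R < r → V r < U r) : False := by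
  have hm0 : 0 < m := by rcases hm with rfl | rfl <;> norm_num
  obtain ⟨K, hK⟩ := h.bdd
  obtain ⟨δ, hδ, hδ'⟩ := h.low
  have hdU := h.decayU hm0 hlam
  have hdV := h.decayV hm0 hlam
  have hUK := fun r h1 h2 => (hK r h1 h2).1
  have hU1K := fun r h1 h2 => (hK r h1 h2).2.1
  have hVK := fun r h1 h2 => (hK r h1 h2).2.2.1
  have hV1K := fun r h1 h2 => (hK r h1 h2).2.2.2
  -- `J > 0`
  set J : ℝ → ℝ := fun r => wt m r * (qe m lam r (U r) (U1 r) + U r ^ 4 / 4) with hJdef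
  have hJrw : ∀ r, 0 < r → J r =
      wt m r * gen (1 / 2) (m / 3) (-lam / 2) (m * (3 - m) / 18) (1 / 4) r (U r) (U1 r) := by
    intro r hr
    simp only [hJdef]
    unfold gen qe
    field_simp
    ring
  have hJd : ∀ r, 0 < r → HasDerivAt J
      (wt m r * ((-lam * m + m * (3 - m) / 9 * (2 * m - 3) / r ^ 2) / (3 * r)) * U r ^ 2) r := by
    intro r hr
    have hr0 : r ≠ 0 := hr.ne'
    have h1 := hasDerivAt_qe (m := m) (lam := lam) (P := 1 * U r ^ 2 + (1 - 1) * V r ^ 2) hr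
      (h.dU r hr) (h.dU1 r hr)
    have h2 := (hasDerivAt_wt (m := m) hr).mul (h1.add (((h.dU r hr).fun_pow 4).div_const 4))
    refine h2.congr_deriv ?_
    simp only [Pi.add_apply, Nat.cast_ofNat]
    field_simp
    ring
  have hJ : ∀ r, 0 < r → 0 < J r := by
    refine J_pos_abs hm hlam (L := fun r => U r ^ 2) hJd
      (fun r hr => pow_pos (h.Upos r hr) 2) ?_ ?_
    · have h1 := gen_inf (m := m) (α := 1 / 2) (β := m / 3) (γ := -lam / 2)
        (δ := m * (3 - m) / 18) (ε := 1 / 4) hdU.1 hdU.2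
      refine h1.congr' ?_
      filter_upwards [eventually_gt_atTop 0] with r hr
      exact (hJrw r hr).symm
    · rintro rfl
      have h1 := gen_zero (m := 2) (α := 1 / 2) (β := 2 / 3) (γ := -lam / 2)
        (δ := 2 * (3 - 2) / 18) (ε := 1 / 4) hm (Or.inr rfl) hUK hU1K
      refine h1.congr' ?_
      filter_upwards [self_mem_nhdsWithin] with r hr
      exact (hJrw r hr).symm
  set Z : ℝ → ℝ := fun r => wt m r * NN m 1 1 U U1 V V1 r / U r ^ 2 with hZdef
  have hZrw : ∀ r, 0 < r → Z r = wt m r * gen (1 / 2) (m / 3) 0 0 (1 / 4) r (U r) (U1 r) *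
      (V r / U r) ^ 2 - wt m r * gen (1 / 2) (m / 3) 0 0 (1 / 4) r (V r) (V1 r) := by
    intro r hr
    have hU0 : U r ≠ 0 := (h.Upos r hr).ne'
    simp only [hZdef]
    rw [NN_eq]
    have : ((1 : ℝ) + 1 - 1) / 4 = 1 / 4 := by norm_num
    rw [this]
    field_simp
  have hNsymm : ∀ r, NN m 1 1 V V1 U U1 r = -NN m 1 1 U U1 V V1 r := by
    intro r
    unfold NN
    ring
  have hZd : ∀ r, 0 < r → HasDerivAt Z (-(2 * (V r / U r) / U r ^ 2 * J r) * jj U U1 V V1 r) r := by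
    intro r hr
    have hr0 : r ≠ 0 := hr.ne'
    have hU0 : U r ≠ 0 := (h.Upos r hr).ne'
    have h1 := hasDerivAt_NN h.symm.toSol hr
    have h2 : NN m 1 1 V V1 U U1 = fun r => -NN m 1 1 U U1 V V1 r := funext hNsymm
    rw [h2] at h1
    have h3 := h1.neg
    have h3' : HasDerivAt (NN m 1 1 U U1 V V1) _ r :=
      (h3.congr_of_eventuallyEq (Eventually.of_forall fun r => by simp))
    have h4 := ((hasDerivAt_wt (m := m) hr).mul h3').fun_div ((h.dU r hr).fun_pow 2)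
      (pow_ne_zero 2 hU0)
    refine h4.congr_deriv ?_
    simp only [hJdef, Pi.mul_apply, Nat.cast_ofNat]
    unfold NN jj qe
    field_simp
    ring
  have hZinf : Tendsto Z atTop (𝓝 0) := by
    have h1 := (gen_inf (m := m) (α := 1 / 2) (β := m / 3) (γ := 0) (δ := 0)
      (ε := 1 / 4) hdU.1 hdU.2).abs.add ((gen_inf (m := m) (α := 1 / 2) (β := m / 3) (γ := 0)
      (δ := 0) (ε := 1 / 4) hdV.1 hdV.2).abs)
    simp only [abs_zero, add_zero] at h1
    refine squeeze_zero_norm' ?_ h1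
    filter_upwards [eventually_gt_atTop R] with r hr
    have hr0 : 0 < r := hR0.trans hr
    rw [Real.norm_eq_abs, hZrw r hr0]
    refine (abs_sub _ _).trans (add_le_add ?_ le_rfl)
    rw [abs_mul, abs_of_nonneg (sq_nonneg (V r / U r))]
    have h2 : (V r / U r) ^ 2 ≤ 1 := by
      have h3 : V r / U r ≤ 1 := (div_le_one (h.Upos r hr0)).2 (hR r hr).le
      have h4 : 0 ≤ V r / U r := (div_pos (h.Vpos r hr0) (h.Upos r hr0)).le
      exact pow_le_one₀ h4 h3
    exact mul_le_of_le_one_right (abs_nonneg _) h2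
  have hZ0 : Tendsto Z (𝓝[>] 0) (𝓝 0) := by
    have h1 := ((gen_zero (m := m) (α := 1 / 2) (β := m / 3) (γ := 0) (δ := 0)
      (ε := 1 / 4) hm (Or.inl rfl) hUK hU1K).abs.mul_const ((K / δ) ^ 2)).add
      ((gen_zero (m := m) (α := 1 / 2) (β := m / 3) (γ := 0)
      (δ := 0) (ε := 1 / 4) hm (Or.inl rfl) hVK hV1K).abs)
    simp only [abs_zero, zero_mul, add_zero] at h1
    refine squeeze_zero_norm' ?_ h1
    have h3 : ∀ᶠ s : ℝ in 𝓝[>] 0, s ∈ Ioo (0 : ℝ) 1 := Ioo_mem_nhdsGT one_pos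
    filter_upwards [h3] with r hr
    rw [Real.norm_eq_abs, hZrw r hr.1]
    refine (abs_sub _ _).trans (add_le_add ?_ le_rfl)
    rw [abs_mul, abs_of_nonneg (sq_nonneg (V r / U r))]
    apply mul_le_mul_of_nonneg_left _ (abs_nonneg _)
    apply pow_le_pow_left₀ (div_pos (h.Vpos r hr.1) (h.Upos r hr.1)).le
    exact div_le_div₀ ((abs_nonneg _).trans (hVK r hr.1 hr.2.le))
      ((le_abs_self _).trans (hVK r hr.1 hr.2.le)) hδ (hδ' r hr.1 hr.2.le).1
  refine no_cross_abs (m := m) (c := 1) one_pos h.Upos h.Vpos (fun r hr => h.quot_deriv hr)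
    (fun r hr => (h.flux_deriv hr).congr_deriv (by ring)) (h.flux_inf hm0 hlam)
    (fun r hr => (hasDerivAt_jj h.toSol hr).continuousAt)
    (p := fun r => 2 * (V r / U r) / U r ^ 2 * J r) hZd ?_ hZinf hZ0 ?_ hR0 hR
  · intro r hr
    have h1 := hJ r hr
    have h3 := h.Upos r hr
    have h4 := h.Vpos r hr
    positivity
  · intro r hr hj hlt
    have h3 := h.Upos r hr
    have h4 := h.Vpos r hr
    have h5 := wt_pos (m := m) hr
    simp only [hZdef]
    apply div_neg_of_neg_of_pos _ (by positivity)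
    apply mul_neg_of_pos_of_neg h5
    unfold NN
    have hj' : U1 r * V r - U r * V1 r = 0 := hj
    rw [hj', zero_mul, zero_add]
    have h6 : U r ^ 2 - V r ^ 2 < 0 := by nlinarith
    have h7 : 0 < U r ^ 2 * V r ^ 2 := by positivity
    have h8 : (0 : ℝ) < (1 + 1 - 1) / 4 := by norm_num
    exact mul_neg_of_pos_of_neg h8 (mul_neg_of_pos_of_neg h7 h6)

end pair

end Pool.Agent.Helper32.Schr
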