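import Mathlib
import Pool.Agent.Helper32.Schr.Pair

/-!
# Radial uniqueness
-/

open Filter Topology Set

namespace Pool.Agent.Helper32.Schr

/-- second derivative test at an interior maximum, in the form we need -/
theorem no_max {w w1 : ℝ → ℝ} {t D : ℝ} (hw : ∀ᶠ r in 𝓝 t, HasDerivAt w (w1 r) r)
    (hw1 : HasDerivAt w1 D t) (hD : 0 < D) (hmax : IsLocalMax w t) : False := by
  have h0 : w1 t = 0 := hmax.hasDerivAt_eq_zero hw.self_of_nhds
  have hd : deriv w =ᶠ[𝓝 t] w1 := by
    filter_upwards [hw] with r hr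
    exact hr.deriv
  have h1 : deriv (deriv w) t = D := by
    rw [hd.deriv_eq, hw1.deriv]
  have hmin : IsLocalMin w t := isLocalMin_of_deriv_deriv_pos (by rw [h1]; exact hD)
    (by rw [hd.self_of_nhds, h0]) hw.self_of_nhds.continuousAt
  have hconst : w =ᶠ[𝓝 t] fun _ => w t := by
    filter_upwards [hmax, hmin] with r h2 h3
    exact le_antisymm h2 h3
  have hd2 : deriv w =ᶠ[𝓝 t] fun _ => 0 := by
    have := hconst.deriv
    filter_upwards [this] with r hr
    rw [hr]; simp
  have h2 : deriv (deriv w) t = 0 := by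
    rw [hd2.deriv_eq]; simp
  rw [h1] at h2
  exact hD.ne' h2

/-- Linear equation: a decaying function vanishing at `r₁` vanishes beyond, if the potential is
positive there. -/
theorem zero_beyond {m : ℝ} {w w1 c : ℝ → ℝ} {r₁ : ℝ} (hr₁ : 0 < r₁)
    (hw : ∀ r, 0 < r → HasDerivAt w (w1 r) r)
    (hw1 : ∀ r, 0 < r → HasDerivAt w1 (-(m / r) * w1 r + c r * w r) r)
    (hc : ∀ r, r₁ ≤ r → 0 < c r) (hlim : Tendsto w atTop (𝓝 0)) (h0 : w r₁ = 0) :
    ∀ r, r₁ ≤ r → w r ≤ 0 := by
  intro s hs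
  by_contra hcon
  push Not at hcon
  obtain ⟨M, hM⟩ := eventually_atTop.1 (hlim.eventually (gt_mem_nhds hcon))
  set T : ℝ := max M s with hT
  have hsT : s ≤ T := le_max_right _ _
  have hcont : ContinuousOn w (Icc r₁ T) := fun r hr =>
    (hw r (hr₁.trans_le hr.1)).continuousAt.continuousWithinAt
  obtain ⟨t, ht, htmax⟩ := isCompact_Icc.exists_isMaxOn (nonempty_Icc.2 (hs.trans hsT)) hcont
  have h1 : w s ≤ w t := htmax ⟨hs, hsT⟩
  have h2 : 0 < w t := hcon.trans_le h1
  have h3 : r₁ < t := by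
    rcases ht.1.lt_or_eq with h | h
    · exact h
    · rw [← h, h0] at h2; exact absurd h2 (lt_irrefl _)
  have h4 : t < T := by
    rcases ht.2.lt_or_eq with h | h
    · exact h
    · have h5 := hM t (by rw [h]; exact le_max_left _ _)
      exact absurd h5 (not_lt.2 h1)
  have hmax : IsLocalMax w t := by
    have h5 : Icc r₁ T ∈ 𝓝 t := Icc_mem_nhds h3 h4
    exact htmax.isLocalMax h5
  have ht0 : 0 < t := hr₁.trans h3
  have hw1t : w1 t = 0 := hmax.hasDerivAt_eq_zero (hw t ht0)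
  refine no_max (w1 := w1) (D := c t * w t) ?_ ?_ (mul_pos (hc t h3.le) h2) hmax
  · filter_upwards [lt_mem_nhds ht0] with r hr
    exact hw r hr
  · have := hw1 t ht0
    rw [hw1t, mul_zero, zero_add] at this
    exact this

/-- Linear equation: uniqueness backwards. -/
theorem zero_before {m : ℝ} {w w1 c : ℝ → ℝ} {r₁ : ℝ}
    (hw : ∀ r, 0 < r → HasDerivAt w (w1 r) r)
    (hw1 : ∀ r, 0 < r → HasDerivAt w1 (-(m / r) * w1 r + c r * w r) r)
    (hc : ∀ r, 0 < r → ContinuousAt c r) (h0 : w r₁ = 0) (h1 : w1 r₁ = 0) :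
    ∀ r, 0 < r → r ≤ r₁ → w r = 0 := by
  intro s hs hsr
  -- Lipschitz constant on `[s, r₁]`
  obtain ⟨K, hK⟩ := isCompact_Icc.exists_bound_of_continuousOn (f := c) (s := Icc s r₁)
    (fun r hr => (hc r (hs.trans_le hr.1)).continuousWithinAt)
  have hK0 : 0 ≤ K := (norm_nonneg _).trans (hK s ⟨le_rfl, hsr⟩)
  set L : NNReal := ⟨1 + |m| / s + K, by positivity⟩ with hL
  let v : ℝ → ℝ × ℝ → ℝ × ℝ := fun t x => (x.2, -(m / t) * x.2 + c t * x.1)
  have hv : ∀ t ∈ Ioc s r₁, LipschitzOnWith L (v t) univ := by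
    intro t ht
    have ht0 : 0 < t := hs.trans ht.1
    rw [lipschitzOnWith_univ]
    refine LipschitzWith.of_dist_le_mul fun x y => ?_
    rw [dist_eq_norm, dist_eq_norm]
    have e : v t x - v t y = ((x - y).2, -(m / t) * (x - y).2 + c t * (x - y).1) := by
      simp only [v, Prod.mk_sub_mk, Prod.snd_sub, Prod.fst_sub]
      congr 1
      ring
    rw [e]
    set z := x - y with hz
    have hz1 : ‖z.1‖ ≤ ‖z‖ := norm_fst_le z
    have hz2 : ‖z.2‖ ≤ ‖z‖ := norm_snd_le z
    have hLv : (L : ℝ) = 1 + |m| / s + K := rfl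
    have hms : 0 ≤ |m| / s := by positivity
    rw [hLv, Prod.norm_def]
    apply max_le
    · have : ‖z.2‖ ≤ 1 * ‖z‖ := by rw [one_mul]; exact hz2
      refine this.trans ?_
      exact mul_le_mul_of_nonneg_right (by linarith) (norm_nonneg _)
    · refine (norm_add_le _ _).trans ?_
      rw [norm_mul, norm_mul]
      have h2 : ‖-(m / t)‖ ≤ |m| / s := by
        rw [norm_neg, norm_div, Real.norm_eq_abs, Real.norm_eq_abs, abs_of_pos ht0]
        exact div_le_div_of_nonneg_left (abs_nonneg _) hs ht.1.le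
      have h3 : ‖c t‖ ≤ K := hK t ⟨ht.1.le, ht.2⟩
      have h4 : ‖-(m / t)‖ * ‖z.2‖ ≤ |m| / s * ‖z‖ :=
        mul_le_mul h2 hz2 (norm_nonneg _) hms
      have h5 : ‖c t‖ * ‖z.1‖ ≤ K * ‖z‖ := mul_le_mul h3 hz1 (norm_nonneg _) hK0
      have h6 : 0 ≤ ‖z‖ := norm_nonneg _
      nlinarith
  have hf : ContinuousOn (fun t => (w t, w1 t)) (Icc s r₁) := fun r hr =>
    ((hw r (hs.trans_le hr.1)).continuousAt.prodMk
      (hw1 r (hs.trans_le hr.1)).continuousAt).continuousWithinAt
  have h2 := ODE_solution_unique_of_mem_Icc_left (v := v) (s := fun _ => univ) (K := L)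
    (f := fun t => (w t, w1 t)) (g := fun _ => (0, 0)) (a := s) (b := r₁) hv hf
    (fun t ht => by
      have ht0 : 0 < t := hs.trans ht.1
      exact ((hw t ht0).prodMk (hw1 t ht0)).hasDerivWithinAt)
    (fun _ _ => mem_univ _) continuousOn_const
    (fun t ht => by
      have : v t (0, 0) = (0, 0) := by simp [v]
      rw [this]
      exact hasDerivWithinAt_const _ _ _)
    (fun _ _ => mem_univ _) (by simp [h0, h1])
  have h3 := h2 ⟨le_rfl, hsr⟩
  exact congrArg Prod.fst h3

variable {m lam a b : ℝ} {U U1 V V1 : ℝ → ℝ}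

theorem Good.eq_of (h : Good m lam a b U U1 V V1) (hlam : 0 < lam)
    (h1 : ∀ R, 0 < R → (∀ r, R < r → V r < U r) → False)
    (h2 : ∀ R, 0 < R → (∀ r, R < r → U r < V r) → False) : ∀ r, 0 < r → U r = V r := by
  set w : ℝ → ℝ := fun r => U r - V r with hw
  set w1 : ℝ → ℝ := fun r => U1 r - V1 r with hw1
  set c : ℝ → ℝ := fun r => lam - (a * U r ^ 2 + (a + b - 1) * (U r * V r) + b * V r ^ 2) with hc
  have hwd : ∀ r, 0 < r → HasDerivAt w (w1 r) r := fun r hr => (h.dU r hr).sub (h.dV r hr)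
  have hw1d : ∀ r, 0 < r → HasDerivAt w1 (-(m / r) * w1 r + c r * w r) r := by
    intro r hr
    refine ((h.dU1 r hr).sub (h.dV1 r hr)).congr_deriv ?_
    simp only [hw1, hc, hw]
    ring
  have hcc : ∀ r, 0 < r → ContinuousAt c r := by
    intro r hr
    have hU := (h.dU r hr).continuousAt
    have hV := (h.dV r hr).continuousAt
    exact continuousAt_const.sub ((((continuousAt_const.mul (hU.pow 2))).add
      (continuousAt_const.mul (hU.mul hV))).add (continuousAt_const.mul (hV.pow 2)))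
  have hclim : Tendsto c atTop (𝓝 lam) := by
    have := (((h.Ulim.pow 2).const_mul a).add ((h.Ulim.mul h.Vlim).const_mul (a + b - 1))).add
      ((h.Vlim.pow 2).const_mul b)
    have := this.const_sub lam
    simpa using this
  have hwlim : Tendsto w atTop (𝓝 0) := by
    have := h.Ulim.sub h.Vlim
    simpa using this
  obtain ⟨R, hR⟩ := eventually_atTop.1 (hclim.eventually (lt_mem_nhds hlam))
  set R₁ : ℝ := max R 1 with hR₁
  have hR₁0 : 0 < R₁ := by positivity
  have hcpos : ∀ r, R₁ ≤ r → 0 < c r := fun r hr => hR r ((le_max_left _ _).trans hr)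
  have hcont : ContinuousOn w (Ici R₁) := fun r hr =>
    (hwd r (hR₁0.trans_le hr)).continuousAt.continuousWithinAt
  by_cases hz : ∃ r₁, R₁ ≤ r₁ ∧ w r₁ = 0
  · obtain ⟨r₁, hr₁, hwr₁⟩ := hz
    have hr₁0 : 0 < r₁ := hR₁0.trans_le hr₁
    have hle := zero_beyond hr₁0 hwd hw1d (fun r hr => hcpos r (hr₁.trans hr)) hwlim hwr₁
    have hge := zero_beyond (w := fun r => -w r) (w1 := fun r => -w1 r) (m := m) (c := c) hr₁0
      (fun r hr => (hwd r hr).neg) (fun r hr => ((hw1d r hr).neg).congr_deriv (by ring))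
      (fun r hr => hcpos r (hr₁.trans hr)) (by simpa using hwlim.neg) (by simp [hwr₁])
    have heq : ∀ r, r₁ ≤ r → w r = 0 := fun r hr => le_antisymm (hle r hr) (by
      have := hge r hr; linarith)
    have hw1r : w1 (r₁ + 1) = 0 := by
      have h3 : w =ᶠ[𝓝 (r₁ + 1)] fun _ => 0 := by
        filter_upwards [lt_mem_nhds (show r₁ < r₁ + 1 by linarith)] with r hr
        exact heq r hr.le
      have h4 := (hwd (r₁ + 1) (by linarith)).congr_of_eventuallyEq h3.symm
      exact h4.unique (hasDerivAt_const _ _)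
    intro r hr
    have h5 : w r = 0 := by
      rcases le_total r (r₁ + 1) with h6 | h6
      · exact zero_before hwd hw1d hcc (heq (r₁ + 1) (by linarith)) hw1r r hr h6
      · exact heq r (by linarith)
    simp only [hw] at h5
    linarith
  · exfalso
    push Not at hz
    rcases lt_trichotomy (w R₁) 0 with h3 | h3 | h3
    · refine h2 R₁ hR₁0 fun r hr => ?_
      by_contra hcon
      push Not at hcon
      have h4 : 0 ≤ w r := by simp only [hw]; linarith
      obtain ⟨t, ht, ht'⟩ := intermediate_value_Icc hr.le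
        (hcont.mono Icc_subset_Ici_self) (show (0 : ℝ) ∈ Icc (w R₁) (w r) from ⟨h3.le, h4⟩)
      exact hz t ht.1 ht'
    · exact hz R₁ le_rfl h3
    · refine h1 R₁ hR₁0 fun r hr => ?_
      by_contra hcon
      push Not at hcon
      have h4 : w r ≤ 0 := by simp only [hw]; linarith
      obtain ⟨t, ht, ht'⟩ := intermediate_value_Icc' hr.le
        (hcont.mono Icc_subset_Ici_self) (show (0 : ℝ) ∈ Icc (w r) (w R₁) from ⟨h4, h3.le⟩)
      exact hz t ht.1 ht'

/-- **Radial uniqueness for the system.** -/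
theorem Good.eq_coupled (h : Good m lam a b U U1 V V1) (hm : m = 1 ∨ m = 2) (hlam : 0 < lam)
    (ha : a < 1) (hb : b < 1) (hc : 0 < a + b - 1) : ∀ r, 0 < r → U r = V r :=
  h.eq_of hlam (fun _ hR0 hR => h.no_cross hm hlam ha hb hc hR0 hR)
    (fun _ hR0 hR => h.symm.no_cross hm hlam hb ha (by linarith) hR0 hR)

/-- **Radial uniqueness for the scalar equation.** -/
theorem Good.eq_scalar (h : Good m lam 1 1 U U1 V V1) (hm : m = 1 ∨ m = 2) (hlam : 0 < lam) :
    ∀ r, 0 < r → U r = V r :=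
  h.eq_of hlam (fun _ hR0 hR => h.no_cross_scalar hm hlam hR0 hR)
    (fun _ hR0 hR => h.symm.no_cross_scalar hm hlam hR0 hR)

end Pool.Agent.Helper32.Schr
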