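import Mathlib
import Pool.Agent.Helper32.Schr.Unique

/-!
# Tools for the Laplacian: directional second derivatives, minima, isometries, a barrier
-/

open Filter Topology Set Metric InnerProductSpace
open scoped Laplacian RealInnerProductSpace

namespace Pool.Agent.Helper32.Schr

variable {E : Type*} [NormedAddCommGroup E] [InnerProductSpace ℝ E] [FiniteDimensional ℝ E]

/-- second derivative in the direction `e` -/
noncomputable def D2 (w : E → ℝ) (x e : E) : ℝ := fderiv ℝ (fderiv ℝ w) x e e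

theorem lap_eq {ι : Type*} [Fintype ι] (b : OrthonormalBasis ι ℝ E) (w : E → ℝ) (x : E) :
    Δ w x = ∑ i, D2 w x (b i) := by
  rw [laplacian_eq_iteratedFDeriv_orthonormalBasis w b]
  simp only [iteratedFDeriv_two_apply, D2]
  rfl

theorem line_hasDerivAt (x e : E) (t : ℝ) : HasDerivAt (fun t : ℝ => x + t • e) e t := by
  simpa using ((hasDerivAt_id t).smul_const e).const_add x

theorem line_deriv {w : E → ℝ} (hw : ContDiff ℝ 2 w) (x e : E) (t : ℝ) :
    HasDerivAt (fun t : ℝ => w (x + t • e)) (fderiv ℝ w (x + t • e) e) t := by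
  have h1 : HasFDerivAt w (fderiv ℝ w (x + t • e)) (x + t • e) :=
    (hw.differentiable (by norm_num) _).hasFDerivAt
  exact h1.comp_hasDerivAt t (line_hasDerivAt x e t)

theorem line_deriv2 {w : E → ℝ} (hw : ContDiff ℝ 2 w) (x e : E) (t : ℝ) :
    HasDerivAt (fun t : ℝ => fderiv ℝ w (x + t • e) e) (D2 w (x + t • e) e) t := by
  have h0 : ContDiff ℝ 1 (fderiv ℝ w) := hw.fderiv_right (by norm_num)
  have h1 : HasFDerivAt (fderiv ℝ w) (fderiv ℝ (fderiv ℝ w) (x + t • e)) (x + t • e) :=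
    (h0.differentiable (by norm_num) _).hasFDerivAt
  have h2 := h1.comp_hasDerivAt t (line_hasDerivAt x e t)
  have h3 := h2.clm_apply (hasDerivAt_const t e)
  simpa [D2] using h3

theorem D2_unique {w : E → ℝ} (hw : ContDiff ℝ 2 w) {x e : E} {D : ℝ}
    (h : HasDerivAt (fun t : ℝ => fderiv ℝ w (x + t • e) e) D 0) : D2 w x e = D := by
  have h1 := line_deriv2 hw x e 0
  rw [zero_smul, add_zero] at h1
  exact h1.unique h

theorem D2_nonneg_of_isLocalMin {w : E → ℝ} (hw : ContDiff ℝ 2 w) {x : E} (h : IsLocalMin w x)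
    (e : E) : 0 ≤ D2 w x e := by
  by_contra hcon
  push Not at hcon
  have hline : ContinuousAt (fun t : ℝ => x + t • e) 0 := (line_hasDerivAt x e 0).continuousAt
  have h0 : x + (0 : ℝ) • e = x := by simp
  refine no_max (w := fun t => -w (x + t • e)) (w1 := fun t => -fderiv ℝ w (x + t • e) e)
    (t := 0) (D := -D2 w (x + (0 : ℝ) • e) e) ?_ ?_ ?_ ?_
  · exact Eventually.of_forall fun t => (line_deriv hw x e t).neg
  · exact (line_deriv2 hw x e 0).neg
  · rw [h0]; linarith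
  · have h1 : ∀ᶠ t in 𝓝 (0 : ℝ), w x ≤ w (x + t • e) := by
      have h2 : Tendsto (fun t : ℝ => x + t • e) (𝓝 0) (𝓝 x) := by
        have := hline.tendsto
        rwa [h0] at this
      exact h2.eventually h
    filter_upwards [h1] with t ht
    rw [h0]
    linarith

theorem lap_nonneg_of_isLocalMin {w : E → ℝ} (hw : ContDiff ℝ 2 w) {x : E} (h : IsLocalMin w x) :
    0 ≤ Δ w x := by
  rw [lap_eq (stdOrthonormalBasis ℝ E)]
  exact Finset.sum_nonneg fun i _ => D2_nonneg_of_isLocalMin hw h _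

theorem lap_sub {w₁ w₂ : E → ℝ} (h₁ : ContDiff ℝ 2 w₁) (h₂ : ContDiff ℝ 2 w₂) (x : E) :
    Δ (fun x => w₁ x - w₂ x) x = Δ w₁ x - Δ w₂ x := by
  rw [lap_eq (stdOrthonormalBasis ℝ E), lap_eq (stdOrthonormalBasis ℝ E),
    lap_eq (stdOrthonormalBasis ℝ E), ← Finset.sum_sub_distrib]
  refine Finset.sum_congr rfl fun i _ => ?_
  apply D2_unique (h₁.sub h₂)
  have h3 : ∀ p : E, fderiv ℝ (fun x => w₁ x - w₂ x) p = fderiv ℝ w₁ p - fderiv ℝ w₂ p := fun p =>
    fderiv_fun_sub (h₁.differentiable (by norm_num) p) (h₂.differentiable (by norm_num) p)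
  simp only [h3, sub_apply]
  have h4 := (line_deriv2 h₁ x (stdOrthonormalBasis ℝ E i) 0).fun_sub
    (line_deriv2 h₂ x (stdOrthonormalBasis ℝ E i) 0)
  simpa using h4

theorem lap_const_mul {w : E → ℝ} (h : ContDiff ℝ 2 w) (c : ℝ) (x : E) :
    Δ (fun x => c * w x) x = c * Δ w x := by
  rw [lap_eq (stdOrthonormalBasis ℝ E), lap_eq (stdOrthonormalBasis ℝ E), Finset.mul_sum]
  refine Finset.sum_congr rfl fun i _ => ?_
  apply D2_unique (contDiff_const.mul h)
  have h3 : ∀ p : E, fderiv ℝ (fun x => c * w x) p = c • fderiv ℝ w p := fun p =>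
    fderiv_const_mul (h.differentiable (by norm_num) p) c
  simp only [h3, smul_apply, smul_eq_mul]
  have h4 := (line_deriv2 h x (stdOrthonormalBasis ℝ E i) 0).const_mul c
  simpa using h4

/-- An affine isometry. -/
theorem fderiv_comp_isom (g : E ≃ₗᵢ[ℝ] E) (c : E) {w : E → ℝ} (hw : ContDiff ℝ 2 w) (x e : E) :
    fderiv ℝ (fun x => w (g x + c)) x e = fderiv ℝ w (g x + c) (g e) := by
  have h1 : HasFDerivAt (fun x => g x + c) (g.toContinuousLinearEquiv : E →L[ℝ] E) x :=
    (g.toContinuousLinearEquiv : E →L[ℝ] E).hasFDerivAt.add_const c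
  have h2 : HasFDerivAt w (fderiv ℝ w (g x + c)) (g x + c) :=
    (hw.differentiable (by norm_num) _).hasFDerivAt
  have h3 := HasFDerivAt.comp (g := w) (f := fun x => g x + c) x h2 h1
  have h4 : fderiv ℝ (fun x => w (g x + c)) x =
    (fderiv ℝ w (g x + c)).comp (g.toContinuousLinearEquiv : E →L[ℝ] E) := h3.fderiv
  rw [h4]
  rfl

theorem contDiff_comp_isom (g : E ≃ₗᵢ[ℝ] E) (c : E) {w : E → ℝ} (hw : ContDiff ℝ 2 w) :
    ContDiff ℝ 2 (fun x => w (g x + c)) :=
  hw.comp ((g.toContinuousLinearEquiv : E →L[ℝ] E).contDiff.add contDiff_const)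

theorem lap_comp_isom (g : E ≃ₗᵢ[ℝ] E) (c : E) {w : E → ℝ} (hw : ContDiff ℝ 2 w) (x : E) :
    Δ (fun x => w (g x + c)) x = Δ w (g x + c) := by
  rw [lap_eq (stdOrthonormalBasis ℝ E), lap_eq ((stdOrthonormalBasis ℝ E).map g)]
  refine Finset.sum_congr rfl fun i _ => ?_
  apply D2_unique (contDiff_comp_isom g c hw)
  set e := stdOrthonormalBasis ℝ E i with he
  have h1 : ∀ t : ℝ, fderiv ℝ (fun x => w (g x + c)) (x + t • e) e =
      fderiv ℝ w ((g x + c) + t • g e) (g e) := by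
    intro t
    rw [fderiv_comp_isom g c hw]
    congr 2
    rw [map_add, map_smul]
    abel
  simp only [h1]
  have h2 := line_deriv2 hw (g x + c) (g e) 0
  simpa using h2

/-- The Gaussian. -/
noncomputable def gauss (α : ℝ) (y : E) (x : E) : ℝ := Real.exp (-α * ‖x - y‖ ^ 2)

theorem contDiff_gauss (α : ℝ) (y : E) : ContDiff ℝ 2 (gauss α y) := by
  unfold gauss
  exact Real.contDiff_exp.comp (contDiff_const.mul ((contDiff_id.sub contDiff_const).norm_sq ℝ))

theorem fderiv_gauss (α : ℝ) (y x e : E) :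
    fderiv ℝ (gauss α y) x e = gauss α y x * (-2 * α * ⟪x - y, e⟫) := by
  have h1 : HasDerivAt (fun t : ℝ => gauss α y (x + t • e)) (fderiv ℝ (gauss α y) x e) 0 := by
    have := line_deriv (contDiff_gauss α y) x e 0
    simpa using this
  have h2 : HasDerivAt (fun t : ℝ => ‖x + t • e - y‖ ^ 2) (2 * ⟪x - y, e⟫) 0 := by
    have h3 : HasDerivAt (fun t : ℝ => x + t • e - y) e 0 := (line_hasDerivAt x e 0).sub_const y
    have h4 := h3.norm_sq
    simpa using h4
  have h3 := (h2.const_mul (-α)).exp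
  refine h1.unique (h3.congr_deriv ?_)
  unfold gauss
  simp
  ring

theorem D2_gauss (α : ℝ) (y x e : E) :
    D2 (gauss α y) x e = gauss α y x * (4 * α ^ 2 * ⟪x - y, e⟫ ^ 2 - 2 * α * ‖e‖ ^ 2) := by
  apply D2_unique (contDiff_gauss α y)
  simp only [fderiv_gauss]
  have h1 : HasDerivAt (fun t : ℝ => gauss α y (x + t • e)) (gauss α y x * (-2 * α * ⟪x - y, e⟫))
      0 := by
    have := line_deriv (contDiff_gauss α y) x e 0
    rw [fderiv_gauss] at this
    simpa using this
  have h2 : HasDerivAt (fun t : ℝ => ⟪x + t • e - y, e⟫) (⟪e, e⟫) 0 := by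
    have h3 : HasDerivAt (fun t : ℝ => x + t • e - y) e 0 := (line_hasDerivAt x e 0).sub_const y
    have h4 := h3.inner ℝ (hasDerivAt_const (0 : ℝ) e)
    simpa using h4
  have h3 := h1.mul (h2.const_mul (-2 * α))
  refine h3.congr_deriv ?_
  rw [real_inner_self_eq_norm_sq]
  simp only [zero_smul, add_zero]
  ring

theorem lap_gauss (α : ℝ) (y x : E) :
    Δ (gauss α y) x = gauss α y x *
      (4 * α ^ 2 * ‖x - y‖ ^ 2 - 2 * α * (Module.finrank ℝ E : ℝ)) := by
  rw [lap_eq (stdOrthonormalBasis ℝ E)]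
  simp only [D2_gauss]
  rw [← Finset.mul_sum, Finset.sum_sub_distrib, ← Finset.mul_sum]
  have h1 : ∑ i, ⟪x - y, stdOrthonormalBasis ℝ E i⟫ ^ 2 = ‖x - y‖ ^ 2 :=
    (stdOrthonormalBasis ℝ E).sum_sq_inner_left (x - y)
  rw [h1]
  simp only [OrthonormalBasis.norm_eq_one, one_pow, mul_one, Finset.sum_const, Finset.card_univ,
    Fintype.card_fin, nsmul_eq_mul]
  ring

end Pool.Agent.Helper32.Schr
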