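import Mathlib
import Pool.Agent.Helper32.Schr.Lap

/-!
# Hopf's lemma and the strong maximum principle for `-Δ w + λ w ≥ 0`
-/

open Filter Topology Set Metric InnerProductSpace
open scoped Laplacian RealInnerProductSpace

namespace Pool.Agent.Helper32.Schr

variable {E : Type*} [NormedAddCommGroup E] [InnerProductSpace ℝ E] [FiniteDimensional ℝ E]

/-- **Hopf's lemma.** -/
theorem hopf {w : E → ℝ} (hw : ContDiff ℝ 2 w) {lam ρ : ℝ} (hlam : 0 < lam) (hρ : 0 < ρ) {y p : E}
    (hp : ‖p - y‖ = ρ) (hpos : ∀ x, ‖x - y‖ < ρ → 0 < w x) (hp0 : w p = 0)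
    (hsuper : ∀ x, ‖x - y‖ < ρ → 0 ≤ -Δ w x + lam * w x) : 0 < fderiv ℝ w p (y - p) := by
  have hwc : Continuous w := hw.continuous
  set N : ℝ := (Module.finrank ℝ E : ℝ) with hN
  have hN0 : 0 ≤ N := Nat.cast_nonneg _
  -- nonnegativity on the closed ball
  have hnn : ∀ x, ‖x - y‖ ≤ ρ → 0 ≤ w x := by
    intro x hx
    rcases hx.lt_or_eq with h | h
    · exact (hpos x h).le
    · -- limit of interior points
      have h1 : Tendsto (fun t : ℝ => w (y + t • (x - y))) (𝓝[<] 1) (𝓝 (w x)) := by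
        have h2 : Continuous (fun t : ℝ => w (y + t • (x - y))) := by fun_prop
        have h3 := h2.tendsto 1
        have h4 : y + (1 : ℝ) • (x - y) = x := by rw [one_smul]; abel
        rw [h4] at h3
        exact h3.mono_left nhdsWithin_le_nhds
      refine ge_of_tendsto h1 ?_
      have h5 : ∀ᶠ t : ℝ in 𝓝[<] 1, t ∈ Ioo (0 : ℝ) 1 := Ioo_mem_nhdsLT one_pos
      filter_upwards [h5] with t ht
      apply (hpos _ _).le
      rw [add_sub_cancel_left, norm_smul, Real.norm_eq_abs, abs_of_pos ht.1, h]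
      nlinarith [ht.2]
  -- the minimum on the inner sphere
  have hsph : IsCompact (sphere y (ρ / 2)) := isCompact_sphere _ _
  have hne : (sphere y (ρ / 2)).Nonempty := by
    refine ⟨y + (1 / 2 : ℝ) • (p - y), ?_⟩
    rw [mem_sphere, dist_eq_norm, add_sub_cancel_left, norm_smul, hp, Real.norm_eq_abs,
      abs_of_pos (by norm_num)]
    ring
  obtain ⟨q, hq, hqmin⟩ := hsph.exists_isMinOn hne hwc.continuousOn
  have hq' : ‖q - y‖ = ρ / 2 := by rw [← dist_eq_norm]; exact hq
  set δ : ℝ := w q with hδ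
  have hδ0 : 0 < δ := hpos q (by rw [hq']; linarith)
  -- choice of `α`
  obtain ⟨α, hα0, hα⟩ : ∃ α : ℝ, 0 < α ∧ 0 ≤ α ^ 2 * ρ ^ 2 - 2 * α * N - lam := by
    refine ⟨(2 * N + lam + 1) / ρ ^ 2 + 1, by positivity, ?_⟩
    set A : ℝ := (2 * N + lam + 1) / ρ ^ 2 with hA
    have hA0 : 0 ≤ A := by positivity
    have h1 : A * ρ ^ 2 = 2 * N + lam + 1 := by rw [hA]; field_simp
    have h2 : (A + 1) ^ 2 * ρ ^ 2 = (A + 1) * (2 * N + lam + 1) + (A + 1) * ρ ^ 2 := by
      have : (A + 1) ^ 2 * ρ ^ 2 = (A + 1) * (A * ρ ^ 2) + (A + 1) * ρ ^ 2 := by ring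
      rw [this, h1]
    rw [h2]
    have h3 : 0 ≤ (A + 1) * ρ ^ 2 := by positivity
    nlinarith [mul_nonneg hA0 hlam.le]
  set h : E → ℝ := fun x => δ * (gauss α y x - Real.exp (-α * ρ ^ 2)) with hh
  have hhc : ContDiff ℝ 2 h := contDiff_const.mul ((contDiff_gauss α y).sub contDiff_const)
  have hhl : ∀ x, Δ h x = δ * Δ (gauss α y) x := by
    intro x
    have h1 : Δ h x = δ * Δ (fun x => gauss α y x - Real.exp (-α * ρ ^ 2)) x :=
      lap_const_mul ((contDiff_gauss α y).sub contDiff_const) δ x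
    rw [h1]
    congr 1
    have h2 := lap_sub (contDiff_gauss α y) (contDiff_const (c := Real.exp (-α * ρ ^ 2))) x
    rw [h2]
    have h3 : Δ (fun _ : E => Real.exp (-α * ρ ^ 2)) x = 0 := by
      rw [lap_eq (stdOrthonormalBasis ℝ E)]
      apply Finset.sum_eq_zero
      intro i _
      unfold D2
      simp
    rw [h3, sub_zero]
  -- comparison on the annulus
  have hcomp : ∀ x, ρ / 2 ≤ ‖x - y‖ → ‖x - y‖ ≤ ρ → h x ≤ w x := by
    by_contra hcon
    push Not at hcon
    obtain ⟨x₀, hx₀1, hx₀2, hx₀⟩ := hcon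
    set A : Set E := {x | ρ / 2 ≤ ‖x - y‖ ∧ ‖x - y‖ ≤ ρ} with hA
    have hAc : IsCompact A := by
      have h1 : A = closedBall y ρ ∩ {x | ρ / 2 ≤ ‖x - y‖} := by
        ext x
        rw [mem_inter_iff, mem_closedBall, dist_eq_norm]
        exact and_comm
      rw [h1]
      exact (isCompact_closedBall y ρ).inter_right
        (isClosed_le continuous_const (by fun_prop))
    obtain ⟨x₁, hx₁, hmin⟩ := hAc.exists_isMinOn ⟨x₀, hx₀1, hx₀2⟩
      ((hwc.sub hhc.continuous).continuousOn)
    have h1 : w x₁ - h x₁ < 0 := by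
      have : w x₁ - h x₁ ≤ w x₀ - h x₀ := hmin (show x₀ ∈ A from ⟨hx₀1, hx₀2⟩)
      linarith
    have hout : ‖x₁ - y‖ < ρ := by
      rcases hx₁.2.lt_or_eq with h2 | h2
      · exact h2
      · exfalso
        have h3 : h x₁ = 0 := by simp only [hh, gauss, h2, sub_self, mul_zero]
        have h4 := hnn x₁ hx₁.2
        linarith
    have hin : ρ / 2 < ‖x₁ - y‖ := by
      rcases hx₁.1.lt_or_eq with h2 | h2
      · exact h2
      · exfalso
        have h3 : δ ≤ w x₁ := hqmin (show x₁ ∈ sphere y (ρ / 2) by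
          rw [mem_sphere, dist_eq_norm]; exact h2.symm)
        have h4 : h x₁ ≤ δ := by
          have h5 : gauss α y x₁ ≤ 1 := by
            unfold gauss
            rw [Real.exp_le_one_iff]
            have : 0 ≤ α * ‖x₁ - y‖ ^ 2 := by positivity
            linarith
          have h6 : 0 < Real.exp (-α * ρ ^ 2) := Real.exp_pos _
          have h7 : gauss α y x₁ - Real.exp (-α * ρ ^ 2) ≤ 1 := by linarith
          calc h x₁ = δ * (gauss α y x₁ - Real.exp (-α * ρ ^ 2)) := rfl
            _ ≤ δ * 1 := mul_le_mul_of_nonneg_left h7 hδ0.le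
            _ = δ := mul_one _
        linarith
    have hloc : IsLocalMin (fun x => w x - h x) x₁ := by
      apply hmin.isLocalMin
      have h2 : {x : E | ρ / 2 < ‖x - y‖ ∧ ‖x - y‖ < ρ} ∈ 𝓝 x₁ := by
        have h2o : IsOpen {x : E | ρ / 2 < ‖x - y‖ ∧ ‖x - y‖ < ρ} := by
          have hc : Continuous fun x : E => ‖x - y‖ := by fun_prop
          exact (isOpen_lt continuous_const hc).inter (isOpen_lt hc continuous_const)
        exact h2o.mem_nhds ⟨hin, hout⟩
      exact mem_of_superset h2 fun x hx => ⟨hx.1.le, hx.2.le⟩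
    have h2 := lap_nonneg_of_isLocalMin (hw.sub hhc) hloc
    have h2' : Δ (fun x => w x - h x) x₁ = Δ w x₁ - Δ h x₁ := lap_sub hw hhc x₁
    have h3 : 0 ≤ Δ w x₁ - Δ h x₁ := by rw [← h2']; exact h2
    have h4 := hsuper x₁ hout
    have h5 : lam * h x₁ ≤ Δ h x₁ := by
      rw [hhl, lap_gauss]
      have h6 : 0 < gauss α y x₁ := Real.exp_pos _
      have h7 : lam * h x₁ ≤ δ * (gauss α y x₁ * lam) := by
        have h8 : 0 < Real.exp (-α * ρ ^ 2) := Real.exp_pos _
        have h9 : h x₁ = δ * gauss α y x₁ - δ * Real.exp (-α * ρ ^ 2) := by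
          simp only [hh]; ring
        rw [h9]
        have h10 : 0 < lam * (δ * Real.exp (-α * ρ ^ 2)) := by positivity
        nlinarith
      refine h7.trans (mul_le_mul_of_nonneg_left (mul_le_mul_of_nonneg_left ?_ h6.le) hδ0.le)
      have h8 : ρ ^ 2 / 4 ≤ ‖x₁ - y‖ ^ 2 := by nlinarith [norm_nonneg (x₁ - y)]
      have h9 : α ^ 2 * ρ ^ 2 ≤ 4 * α ^ 2 * ‖x₁ - y‖ ^ 2 := by nlinarith [sq_nonneg α]
      linarith
    nlinarith
  -- the derivative
  have hpy : p + (0 : ℝ) • (y - p) = p := by simp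
  have hd1 := line_deriv hw p (y - p) 0
  have hd2 := line_deriv hhc p (y - p) 0
  rw [hpy] at hd1 hd2
  have hhp : h p = 0 := by simp only [hh, gauss, hp, sub_self, mul_zero]
  have hge : ∀ᶠ t : ℝ in 𝓝[>] 0, 0 ≤ w (p + t • (y - p)) - h (p + t • (y - p)) := by
    have h5 : ∀ᶠ t : ℝ in 𝓝[>] 0, t ∈ Ioo (0 : ℝ) (1 / 2) := Ioo_mem_nhdsGT (by norm_num)
    filter_upwards [h5] with t ht
    have h6 : ‖p + t • (y - p) - y‖ = (1 - t) * ρ := by
      have : p + t • (y - p) - y = (1 - t) • (p - y) := by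
        rw [sub_smul, one_smul, smul_sub, smul_sub]; abel
      rw [this, norm_smul, hp, Real.norm_eq_abs, abs_of_pos (by linarith [ht.2])]
    have := hcomp (p + t • (y - p)) (by rw [h6]; nlinarith [ht.2]) (by rw [h6]; nlinarith [ht.1])
    linarith
  have hd3 : 0 ≤ fderiv ℝ w p (y - p) - fderiv ℝ h p (y - p) := by
    have h7 := hd1.sub hd2
    have h8 := (hasDerivAt_iff_tendsto_slope.1 h7).mono_left
      (nhdsWithin_mono (0 : ℝ) (show Ioi (0 : ℝ) ⊆ {0}ᶜ from fun x hx => ne_of_gt hx))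
    refine ge_of_tendsto h8 ?_
    filter_upwards [hge, self_mem_nhdsWithin] with t ht ht0
    have ht0' : (0 : ℝ) < t := ht0
    rw [slope_def_field]
    simp only [Pi.sub_apply]
    rw [hpy, hp0, hhp, sub_self, sub_zero, sub_zero]
    exact div_nonneg ht ht0'.le
  have hd4 : 0 < fderiv ℝ h p (y - p) := by
    have h9 : fderiv ℝ h p (y - p) = δ * (gauss α y p * (-2 * α * ⟪p - y, y - p⟫)) := by
      have h10 : HasFDerivAt h (δ • fderiv ℝ (gauss α y) p) p := by
        have h11 : HasFDerivAt (gauss α y) (fderiv ℝ (gauss α y) p) p :=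
          ((contDiff_gauss α y).differentiable (by norm_num) _).hasFDerivAt
        exact (h11.sub_const _).const_mul δ
      rw [h10.fderiv, smul_apply, fderiv_gauss, smul_eq_mul]
    rw [h9]
    have h12 : ⟪p - y, y - p⟫ = -ρ ^ 2 := by
      rw [← neg_sub p y, inner_neg_right, real_inner_self_eq_norm_sq, hp]
    rw [h12]
    have h13 : 0 < gauss α y p := Real.exp_pos _
    have h14 : δ * (gauss α y p * (-2 * α * -ρ ^ 2)) = δ * gauss α y p * (2 * α * ρ ^ 2) := by ring
    rw [h14]
    positivity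
  linarith

/-- **Strong maximum principle** on an open preconnected set. -/
theorem strong_max {w : E → ℝ} (hw : ContDiff ℝ 2 w) {lam : ℝ} (hlam : 0 < lam) {S : Set E}
    (hS : IsOpen S) (hconn : IsPreconnected S) (hnn : ∀ x ∈ S, 0 ≤ w x)
    (hsuper : ∀ x ∈ S, 0 ≤ -Δ w x + lam * w x) :
    (∀ x ∈ S, 0 < w x) ∨ (∀ x ∈ S, w x = 0) := by
  set O : Set E := interior {x | x ∈ S ∧ w x = 0} with hO
  have hkey : ∀ z ∈ S, w z = 0 → z ∈ O := by
    intro z hz hwz
    obtain ⟨δ, hδ, hball⟩ := Metric.isOpen_iff.1 hS z hz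
    have hδ2 : 0 < δ / 2 := by positivity
    rw [hO, mem_interior_iff_mem_nhds]
    refine mem_of_superset (ball_mem_nhds z hδ2) fun y hy => ?_
    have hyS : y ∈ S := hball (ball_subset_ball (by linarith) hy)
    refine ⟨hyS, ?_⟩
    by_contra hne
    have hwy : 0 < w y := lt_of_le_of_ne (hnn y hyS) (Ne.symm hne)
    -- nearest zero
    set Z : Set E := closedBall y (δ / 2) ∩ {x | w x = 0} with hZ
    have hZc : IsCompact Z := (isCompact_closedBall _ _).inter_right
      (isClosed_eq hw.continuous continuous_const)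
    have hzZ : z ∈ Z := by
      refine ⟨?_, hwz⟩
      rw [mem_closedBall, dist_comm]
      exact (mem_ball.1 hy).le
    obtain ⟨p, hpZ, hpmin⟩ := hZc.exists_isMinOn ⟨z, hzZ⟩
      (continuous_id.dist (continuous_const (y := y))).continuousOn
    have hdist : ∀ x ∈ Z, dist p y ≤ dist x y := fun x hx => hpmin hx
    set ρ : ℝ := ‖p - y‖ with hρ
    have hρd : ρ = dist p y := (dist_eq_norm p y).symm
    have hρ0 : 0 < ρ := by
      rw [hρ, norm_pos_iff, sub_ne_zero]
      rintro rfl
      exact hwy.ne' hpZ.2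
    have hρδ : ρ < δ / 2 := by
      rw [hρd]
      refine (hdist z hzZ).trans_lt ?_
      rw [dist_comm]
      exact mem_ball.1 hy
    have hsub : ∀ x, ‖x - y‖ ≤ ρ → x ∈ S := by
      intro x hx
      apply hball
      rw [mem_ball]
      calc dist x z ≤ dist x y + dist y z := dist_triangle _ _ _
        _ < δ / 2 + δ / 2 := by
            have h1 : dist x y ≤ ρ := by rw [dist_eq_norm]; exact hx
            have h2 : dist y z < δ / 2 := mem_ball.1 hy
            linarith
        _ = δ := by ring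
    have hpos : ∀ x, ‖x - y‖ < ρ → 0 < w x := by
      intro x hx
      have hxS := hsub x hx.le
      refine lt_of_le_of_ne (hnn x hxS) fun h0 => ?_
      have hxZ : x ∈ Z := ⟨by rw [mem_closedBall, dist_eq_norm]; linarith, h0.symm⟩
      have h1 := hdist x hxZ
      rw [← hρd, dist_eq_norm] at h1
      linarith
    have hderiv := hopf hw hlam hρ0 hρ.symm hpos hpZ.2 (fun x hx => hsuper x (hsub x hx.le))
    have hpS : p ∈ S := hsub p le_rfl
    have hloc : IsLocalMin w p := by
      filter_upwards [hS.mem_nhds hpS] with x hx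
      rw [show w p = 0 from hpZ.2]
      exact hnn x hx
    have h0 := hloc.fderiv_eq_zero
    rw [h0] at hderiv
    simp at hderiv
  -- connectedness
  have hO1 : IsOpen O := isOpen_interior
  have hO2 : IsOpen {x : E | 0 < w x} := isOpen_lt continuous_const hw.continuous
  have hdisj : Disjoint O {x : E | 0 < w x} := by
    rw [Set.disjoint_left]
    intro x hx hx'
    have h1 := (interior_subset hx).2
    have h2 : 0 < w x := hx'
    exact h2.ne' h1
  have hcover : S ⊆ O ∪ {x : E | 0 < w x} := by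
    intro x hx
    rcases (hnn x hx).lt_or_eq with h | h
    · right; exact h
    · left; exact hkey x hx h.symm
  rcases hconn.subset_or_subset hO1 hO2 hdisj hcover with h | h
  · right
    intro x hx
    exact (interior_subset (h hx)).2
  · left
    intro x hx
    exact h hx

end Pool.Agent.Helper32.Schr
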