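import Mathlib
import Pool.Agent.Helper32.Schr.Hopf

/-!
# Moving planes
-/

open Filter Topology Set Metric InnerProductSpace
open scoped Laplacian RealInnerProductSpace

namespace Pool.Agent.Helper32.Schr

variable {E : Type*} [NormedAddCommGroup E] [InnerProductSpace ℝ E] [FiniteDimensional ℝ E]

/-- Positive classical solutions of the system tending to zero at infinity. -/
structure PS (lam μ₁ μ₂ β : ℝ) (u v : E → ℝ) : Prop where
  cu : ContDiff ℝ 2 u
  cv : ContDiff ℝ 2 v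
  pu : ∀ x, 0 < u x
  pv : ∀ x, 0 < v x
  lu : Tendsto u (cocompact E) (𝓝 0)
  lv : Tendsto v (cocompact E) (𝓝 0)
  eu : ∀ x, -Δ u x + lam * u x = μ₁ * u x ^ 3 + β * (u x * v x ^ 2)
  ev : ∀ x, -Δ v x + lam * v x = μ₂ * v x ^ 3 + β * (v x * u x ^ 2)

theorem PS.symm {lam μ₁ μ₂ β : ℝ} {u v : E → ℝ} (h : PS lam μ₁ μ₂ β u v) : PS lam μ₂ μ₁ β v u :=
  ⟨h.cv, h.cu, h.pv, h.pu, h.lv, h.lu, h.ev, h.eu⟩

/-- The linear part of the reflection. -/
noncomputable def gE (e : E) : E ≃ₗᵢ[ℝ] E := (ℝ ∙ e)ᗮ.reflection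

/-- The reflection in the hyperplane `⟪e, x⟫ = t` (`e` a unit vector). -/
noncomputable def rf (e : E) (t : ℝ) (x : E) : E := gE e x + (2 * t) • e

theorem gE_apply {e : E} (he : ‖e‖ = 1) (x : E) : gE e x = x - (2 * ⟪e, x⟫) • e := by
  unfold gE
  rw [Submodule.reflection_orthogonal_apply, Submodule.reflection_singleton_apply]
  simp only [he, RCLike.ofReal_one, one_pow, div_one]
  rw [neg_sub, two_smul, two_mul, add_smul]

theorem gE_self {e : E} (he : ‖e‖ = 1) : gE e e = -e := by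
  rw [gE_apply he, real_inner_self_eq_norm_sq, he]
  norm_num
  rw [two_smul]
  abel

theorem rf_apply {e : E} (he : ‖e‖ = 1) (t : ℝ) (x : E) :
    rf e t x = x - (2 * (⟪e, x⟫ - t)) • e := by
  unfold rf
  rw [gE_apply he, mul_sub, sub_smul]
  abel

theorem rf_of_mem {e : E} (he : ‖e‖ = 1) {t : ℝ} {x : E} (hx : ⟪e, x⟫ = t) : rf e t x = x := by
  rw [rf_apply he, hx]
  simp

theorem inner_rf {e : E} (he : ‖e‖ = 1) (t : ℝ) (x : E) : ⟪e, rf e t x⟫ = 2 * t - ⟪e, x⟫ := by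
  rw [rf_apply he, inner_sub_right, inner_smul_right, real_inner_self_eq_norm_sq, he]
  ring

theorem rf_rf {e : E} (he : ‖e‖ = 1) (t : ℝ) (x : E) : rf e t (rf e t x) = x := by
  rw [rf_apply he t (rf e t x), inner_rf he, rf_apply he]
  rw [sub_sub, ← add_smul]
  have : 2 * (⟪e, x⟫ - t) + 2 * (2 * t - ⟪e, x⟫ - t) = 0 := by ring
  rw [this]; simp

theorem continuous_rf (e : E) : Continuous fun q : ℝ × E => rf e q.1 q.2 := by
  unfold rf
  have := (gE e).continuous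
  fun_prop

theorem tendsto_rf (e : E) (t : ℝ) : Tendsto (rf e t) (cocompact E) (cocompact E) := by
  have h1 : Tendsto (gE e).toHomeomorph (cocompact E) (cocompact E) := by
    rw [Tendsto, (gE e).toHomeomorph.map_cocompact]
  have h2 : Tendsto (Homeomorph.addRight ((2 * t) • e)) (cocompact E) (cocompact E) := by
    rw [Tendsto, (Homeomorph.addRight ((2 * t) • e)).map_cocompact]
  exact h2.comp h1

/-- the difference function -/
noncomputable def df (u : E → ℝ) (e : E) (t : ℝ) (x : E) : ℝ := u (rf e t x) - u x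

theorem contDiff_rf {u : E → ℝ} (hu : ContDiff ℝ 2 u) (e : E) (t : ℝ) :
    ContDiff ℝ 2 (fun x => u (rf e t x)) := contDiff_comp_isom (gE e) _ hu

theorem contDiff_df {u : E → ℝ} (hu : ContDiff ℝ 2 u) (e : E) (t : ℝ) : ContDiff ℝ 2 (df u e t) :=
  (contDiff_rf hu e t).sub hu

theorem lap_df {u : E → ℝ} (hu : ContDiff ℝ 2 u) (e : E) (t : ℝ) (x : E) :
    Δ (df u e t) x = Δ u (rf e t x) - Δ u x := by
  have h1 : Δ (df u e t) x = Δ (fun x => u (rf e t x)) x - Δ u x := lap_sub (contDiff_rf hu e t) hu x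
  rw [h1]
  congr 1
  exact lap_comp_isom (gE e) _ hu x

theorem fderiv_df {u : E → ℝ} (hu : ContDiff ℝ 2 u) {e : E} (he : ‖e‖ = 1) (t : ℝ) (x : E) :
    fderiv ℝ (df u e t) x e = -(fderiv ℝ u (rf e t x) e + fderiv ℝ u x e) := by
  have h1 : fderiv ℝ (df u e t) x = fderiv ℝ (fun x => u (rf e t x)) x - fderiv ℝ u x :=
    fderiv_fun_sub ((contDiff_rf hu e t).differentiable (by norm_num) x)
      (hu.differentiable (by norm_num) x)
  have h2 : fderiv ℝ (fun x => u (rf e t x)) x e = fderiv ℝ u (rf e t x) (gE e e) :=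
    fderiv_comp_isom (gE e) _ hu x e
  rw [h1, sub_apply, h2, gE_self he, map_neg]
  ring

theorem tendsto_df {u : E → ℝ} (hu : Tendsto u (cocompact E) (𝓝 0)) (e : E) (t : ℝ) :
    Tendsto (df u e t) (cocompact E) (𝓝 0) := by
  have h1 : Tendsto (fun x => u (rf e t x) - u x) (cocompact E) (𝓝 (0 - 0)) :=
    (hu.comp (tendsto_rf e t)).sub hu
  rw [sub_zero] at h1
  exact h1

section

variable {lam μ₁ μ₂ β : ℝ} {u v : E → ℝ}

/-- The equation for the difference. -/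
theorem PS.eq_df (h : PS lam μ₁ μ₂ β u v) (e : E) (t : ℝ) (x : E) :
    -Δ (df u e t) x + lam * df u e t x =
      (μ₁ * u (rf e t x) ^ 3 + β * (u (rf e t x) * v (rf e t x) ^ 2)) -
        (μ₁ * u x ^ 3 + β * (u x * v x ^ 2)) := by
  rw [lap_df h.cu, ← h.eu, ← h.eu]
  unfold df
  ring

/-- Monotonicity of the right hand side. -/
theorem rhs_mono (h1 : 0 ≤ μ₁) (hβ : 0 ≤ β) {a b a' b' : ℝ} (ha : 0 ≤ a) (hb : 0 ≤ b) (haa : a ≤ a')
    (hbb : b ≤ b') : μ₁ * a ^ 3 + β * (a * b ^ 2) ≤ μ₁ * a' ^ 3 + β * (a' * b' ^ 2) := by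
  have h2 : a ^ 3 ≤ a' ^ 3 := pow_le_pow_left₀ ha haa 3
  have h3 : b ^ 2 ≤ b' ^ 2 := pow_le_pow_left₀ hb hbb 2
  have h4 : a * b ^ 2 ≤ a' * b' ^ 2 := mul_le_mul haa h3 (by positivity) (ha.trans haa)
  exact add_le_add (mul_le_mul_of_nonneg_left h2 h1) (mul_le_mul_of_nonneg_left h4 hβ)

/-- The small Lipschitz constant of the right hand side near zero. -/
theorem rhs_lip (h1 : 0 ≤ μ₁) (hβ : 0 ≤ β) {a b a' b' δ ε : ℝ} (ha : 0 < a) (hb : 0 < b)
    (haε : a ≤ ε) (hbε : b ≤ ε) (ha' : 0 < a') (hb' : 0 < b') (hδ : 0 < δ) (haa : a' = a - δ)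
    (hbb : b - δ ≤ b') :
    μ₁ * a ^ 3 + β * (a * b ^ 2) - (3 * μ₁ + 3 * β) * ε ^ 2 * δ ≤
      μ₁ * a' ^ 3 + β * (a' * b' ^ 2) := by
  have hε : 0 < ε := ha.trans_le haε
  have hδa : δ ≤ a := by linarith
  have h2 : a ^ 3 - a' ^ 3 ≤ 3 * ε ^ 2 * δ := by
    rw [haa]
    have h3 : a ^ 3 - (a - δ) ^ 3 = 3 * a ^ 2 * δ - δ ^ 2 * (3 * a - δ) := by ring
    have h4 : 0 ≤ δ ^ 2 * (3 * a - δ) := mul_nonneg (sq_nonneg _) (by linarith)
    have h5 : a ^ 2 ≤ ε ^ 2 := pow_le_pow_left₀ ha.le haε 2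
    nlinarith
  have h3 : a * b ^ 2 - a' * b' ^ 2 ≤ 3 * ε ^ 2 * δ := by
    have h4 : a * b ^ 2 - a' * b' ^ 2 = δ * b ^ 2 + a' * (b ^ 2 - b' ^ 2) := by rw [haa]; ring
    have h5 : b ^ 2 ≤ ε ^ 2 := pow_le_pow_left₀ hb.le hbε 2
    have h6 : a' * (b ^ 2 - b' ^ 2) ≤ 2 * ε ^ 2 * δ := by
      rcases le_total b b' with h7 | h7
      · have h8 : b ^ 2 ≤ b' ^ 2 := pow_le_pow_left₀ hb.le h7 2
        have h9 : a' * (b ^ 2 - b' ^ 2) ≤ 0 := mul_nonpos_of_nonneg_of_nonpos ha'.le (by linarith)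
        have : 0 ≤ 2 * ε ^ 2 * δ := by positivity
        linarith
      · have h8 : b ^ 2 - b' ^ 2 ≤ δ * (2 * b) := by
          have : b ^ 2 - b' ^ 2 = (b - b') * (b + b') := by ring
          rw [this]
          exact mul_le_mul (by linarith) (by linarith) (by linarith) hδ.le
        have h9 : a' ≤ ε := by linarith
        calc a' * (b ^ 2 - b' ^ 2) ≤ a' * (δ * (2 * b)) := mul_le_mul_of_nonneg_left h8 ha'.le
          _ ≤ ε * (δ * (2 * ε)) := by
              apply mul_le_mul h9 _ (by positivity) hε.le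
              exact mul_le_mul_of_nonneg_left (by linarith) hδ.le
          _ = 2 * ε ^ 2 * δ := by ring
    rw [h4]
    nlinarith
  nlinarith [mul_le_mul_of_nonneg_left h2 h1, mul_le_mul_of_nonneg_left h3 hβ]

/-- At a negative minimum of the difference. -/
theorem PS.crit_aux (h : PS lam μ₁ μ₂ β u v) (hμ₁ : 0 ≤ μ₁) (hβ : 0 ≤ β) {e : E} (he : ‖e‖ = 1)
    {ε R₀ : ℝ} (hsmall : ∀ x, R₀ < ‖x‖ → u x ≤ ε ∧ v x ≤ ε)
    (hε : (3 * μ₁ + 3 * β) * ε ^ 2 < lam) {t : ℝ} {x : E} (hx : t < ⟪e, x⟫)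
    (hneg : df u e t x < 0) (hle : df u e t x ≤ df v e t x)
    (hmin : ∀ y, t < ⟪e, y⟫ → df u e t x ≤ df u e t y) :
    ‖x‖ ≤ R₀ ∧ fderiv ℝ u (rf e t x) e + fderiv ℝ u x e = 0 := by
  have hloc : IsLocalMin (df u e t) x := by
    have h1 : {y : E | t < ⟪e, y⟫} ∈ 𝓝 x := by
      have h2 : IsOpen {y : E | t < ⟪e, y⟫} := isOpen_lt continuous_const (by fun_prop)
      exact h2.mem_nhds hx
    filter_upwards [h1] with y hy
    exact hmin y hy
  constructor
  · by_contra hcon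
    push Not at hcon
    obtain ⟨h1, h2⟩ := hsmall x hcon
    have h3 := lap_nonneg_of_isLocalMin (contDiff_df h.cu e t) hloc
    have h4 := h.eq_df e t x
    set δ : ℝ := -df u e t x with hδ
    have hδ0 : 0 < δ := by linarith
    have h5 := rhs_lip (μ₁ := μ₁) (β := β) (δ := δ) hμ₁ hβ (h.pu x) (h.pv x) h1 h2
      (h.pu (rf e t x)) (h.pv (rf e t x)) hδ0 (by simp only [hδ, df]; ring)
      (by
        have : -δ ≤ v (rf e t x) - v x := by
          have : df u e t x ≤ v (rf e t x) - v x := hle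
          linarith
        linarith)
    nlinarith
  · have h1 := hloc.fderiv_eq_zero
    have h2 := fderiv_df h.cu he t x
    rw [h1] at h2
    simp only [zero_apply] at h2
    linarith

/-- If the comparison fails there is a critical point in a fixed ball. -/
theorem PS.crit (h : PS lam μ₁ μ₂ β u v) (hμ₁ : 0 ≤ μ₁) (hμ₂ : 0 ≤ μ₂) (hβ : 0 ≤ β) {e : E}
    (he : ‖e‖ = 1) {ε R₀ : ℝ} (hsmall : ∀ x, R₀ < ‖x‖ → u x ≤ ε ∧ v x ≤ ε)
    (hε₁ : (3 * μ₁ + 3 * β) * ε ^ 2 < lam) (hε₂ : (3 * μ₂ + 3 * β) * ε ^ 2 < lam) {t : ℝ}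
    (hnot : ∃ x, t < ⟪e, x⟫ ∧ (df u e t x < 0 ∨ df v e t x < 0)) :
    ∃ x, t < ⟪e, x⟫ ∧ ‖x‖ ≤ R₀ ∧
      ((df u e t x < 0 ∧ fderiv ℝ u (rf e t x) e + fderiv ℝ u x e = 0) ∨
       (df v e t x < 0 ∧ fderiv ℝ v (rf e t x) e + fderiv ℝ v x e = 0)) := by
  obtain ⟨x₀, hx₀, hneg⟩ := hnot
  set ω : E → ℝ := fun x => min (df u e t x) (df v e t x) with hω
  have hω0 : ω x₀ < 0 := by
    rcases hneg with h1 | h1
    · exact (min_le_left _ _).trans_lt h1
    · exact (min_le_right _ _).trans_lt h1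
  have hωc : Continuous ω := (contDiff_df h.cu e t).continuous.min (contDiff_df h.cv e t).continuous
  have hωlim : Tendsto ω (cocompact E) (𝓝 0) := by
    have := (tendsto_df h.lu e t).min (tendsto_df h.lv e t)
    simpa using this
  have h1 : ∀ᶠ x in cocompact E, ω x₀ < ω x := hωlim.eventually (lt_mem_nhds hω0)
  obtain ⟨K, hK, hKc⟩ := mem_cocompact.1 h1
  set H : Set E := {x | t ≤ ⟪e, x⟫} with hH
  have hHc : IsClosed H := isClosed_le continuous_const (by fun_prop)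
  have hx₀K : x₀ ∈ K := by
    by_contra hcon
    have : ω x₀ < ω x₀ := hKc hcon
    exact lt_irrefl _ this
  obtain ⟨x₁, hx₁, hmin⟩ := (hK.inter_right hHc).exists_isMinOn ⟨x₀, hx₀K, hx₀.le⟩
    hωc.continuousOn
  have hmin' : ∀ x ∈ H, ω x₁ ≤ ω x := by
    intro x hx
    by_cases hxK : x ∈ K
    · exact hmin ⟨hxK, hx⟩
    · have h2 : ω x₀ < ω x := hKc hxK
      have h3 : ω x₁ ≤ ω x₀ := hmin ⟨hx₀K, hx₀.le⟩
      linarith
  have hω1 : ω x₁ < 0 := (hmin' x₀ hx₀.le).trans_lt hω0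
  have hx₁t : t < ⟪e, x₁⟫ := by
    rcases (show t ≤ ⟪e, x₁⟫ from hx₁.2).lt_or_eq with h2 | h2
    · exact h2
    · exfalso
      have h3 : rf e t x₁ = x₁ := rf_of_mem he h2.symm
      have h4 : ω x₁ = 0 := by simp only [hω, df, h3, sub_self, min_self]
      linarith
  refine ⟨x₁, hx₁t, ?_⟩
  rcases le_total (df u e t x₁) (df v e t x₁) with h2 | h2
  · have h3 : ω x₁ = df u e t x₁ := min_eq_left h2
    have h4 : df u e t x₁ < 0 := by rw [← h3]; exact hω1
    have h5 := h.crit_aux hμ₁ hβ he hsmall hε₁ hx₁t h4 h2 (fun y hy => by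
      rw [← h3]; exact (hmin' y hy.le).trans (min_le_left _ _))
    exact ⟨h5.1, Or.inl ⟨h4, h5.2⟩⟩
  · have h3 : ω x₁ = df v e t x₁ := min_eq_right h2
    have h4 : df v e t x₁ < 0 := by rw [← h3]; exact hω1
    have h5 := h.symm.crit_aux hμ₂ hβ he (fun x hx => (hsmall x hx).symm) hε₂ hx₁t h4 h2
      (fun y hy => by rw [← h3]; exact (hmin' y hy.le).trans (min_le_right _ _))
    exact ⟨h5.1, Or.inr ⟨h4, h5.2⟩⟩

/-- The comparison property of the half space `⟪e, x⟫ > t`. -/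
def Cmp (u v : E → ℝ) (e : E) (t : ℝ) : Prop :=
  ∀ x, t < ⟪e, x⟫ → 0 ≤ df u e t x ∧ 0 ≤ df v e t x

/-- If the comparison holds then either the difference vanishes or it is positive and the
derivative on the hyperplane is negative. -/
theorem PS.alternative (h : PS lam μ₁ μ₂ β u v) (hlam : 0 < lam) (hμ₁ : 0 ≤ μ₁) (hβ : 0 < β) {e : E}
    (he : ‖e‖ = 1) {t : ℝ} (hS : Cmp u v e t) :
    (∀ x, t < ⟪e, x⟫ → df u e t x = 0) ∨
      ((∀ x, t < ⟪e, x⟫ → 0 < df u e t x) ∧ ∀ x, ⟪e, x⟫ = t → fderiv ℝ u x e < 0) := by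
  have hopen : IsOpen {x : E | t < ⟪e, x⟫} := isOpen_lt continuous_const (by fun_prop)
  have hconv : Convex ℝ {x : E | t < ⟪e, x⟫} := by
    intro x hx y hy a b ha hb hab
    simp only [Set.mem_ofPred_eq] at hx hy ⊢
    rw [inner_add_right, inner_smul_right, inner_smul_right]
    have h1 : a * t + b * t = t := by rw [← add_mul, hab, one_mul]
    rcases ha.lt_or_eq with h2 | h2
    · nlinarith
    · have hb1 : b = 1 := by linarith
      rw [← h2, hb1]; linarith
  have hsuper : ∀ x ∈ {x : E | t < ⟪e, x⟫}, 0 ≤ -Δ (df u e t) x + lam * df u e t x := by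
    intro x hx
    rw [h.eq_df]
    have h1 := hS x hx
    have h2 : u x ≤ u (rf e t x) := by have := h1.1; unfold df at this; linarith
    have h3 : v x ≤ v (rf e t x) := by have := h1.2; unfold df at this; linarith
    have := rhs_mono hμ₁ hβ.le (h.pu x).le (h.pv x).le h2 h3
    linarith
  rcases strong_max (contDiff_df h.cu e t) hlam hopen hconv.isPreconnected (fun x hx => (hS x hx).1)
    hsuper with h1 | h1
  · right
    refine ⟨h1, fun p hp => ?_⟩
    have hpy : ‖p - (p + e)‖ = 1 := by rw [sub_add_cancel_left, norm_neg, he]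
    have hsub : ∀ x, ‖x - (p + e)‖ < 1 → t < ⟪e, x⟫ := by
      intro x hx
      have h2 : ⟪e, x⟫ = ⟪e, x - (p + e)⟫ + t + 1 := by
        rw [inner_sub_right, inner_add_right, real_inner_self_eq_norm_sq, he, hp]; ring
      have h3 : |⟪e, x - (p + e)⟫| ≤ ‖e‖ * ‖x - (p + e)‖ := abs_real_inner_le_norm _ _
      rw [he, one_mul] at h3
      have h4 := neg_abs_le ⟪e, x - (p + e)⟫
      rw [h2]; linarith
    have h2 := hopf (contDiff_df h.cu e t) hlam one_pos hpy (fun x hx => h1 x (hsub x hx))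
      (by unfold df; rw [rf_of_mem he hp, sub_self]) (fun x hx => hsuper x (hsub x hx))
    rw [add_sub_cancel_left, fderiv_df h.cu he, rf_of_mem he hp] at h2
    linarith
  · left
    exact h1

/-- No bad point near a hyperplane with strict inequalities. -/
theorem no_bad {e : E} (he : ‖e‖ = 1) {t₀ : ℝ} {f : E → ℝ} (hf : ContDiff ℝ 2 f)
    (h1 : ∀ x, t₀ < ⟪e, x⟫ → 0 < df f e t₀ x) (h2 : ∀ x, ⟪e, x⟫ = t₀ → fderiv ℝ f x e < 0)
    (R₀ : ℝ) : ∀ᶠ s in 𝓝 t₀, ∀ x ∈ closedBall (0 : E) R₀,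
      ¬ (s < ⟪e, x⟫ ∧ df f e s x < 0 ∧ fderiv ℝ f (rf e s x) e + fderiv ℝ f x e = 0) := by
  apply (isCompact_closedBall (0 : E) R₀).eventually_forall_of_forall_eventually
  intro p _
  have hfc := hf.continuous
  have hf' : Continuous (fderiv ℝ f) := hf.continuous_fderiv (by norm_num)
  have hg : Continuous fun x : E => fderiv ℝ f x e := hf'.clm_apply continuous_const
  generalize hgg : (fun x : E => fderiv ℝ f x e) = g at hg
  have hgx : ∀ x, fderiv ℝ f x e = g x := fun x => by rw [← hgg]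
  simp only [hgx] at h2 ⊢
  rcases lt_trichotomy t₀ ⟪e, p⟫ with h3 | h3 | h3
  · have h4 : Continuous fun q : ℝ × E => f (rf e q.1 q.2) - f q.2 :=
      (hfc.comp (continuous_rf e)).sub (hfc.comp continuous_snd)
    have h5 : Tendsto (fun q : ℝ × E => f (rf e q.1 q.2) - f q.2) (𝓝 (t₀, p))
      (𝓝 (f (rf e t₀ p) - f p)) := h4.tendsto (t₀, p)
    have h6 := h5.eventually (lt_mem_nhds (show 0 < f (rf e t₀ p) - f p from h1 p h3))
    filter_upwards [h6] with q hq hq'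
    have := hq'.2.1
    unfold df at this
    linarith
  · have h4 : Continuous fun q : ℝ × E => g (rf e q.1 q.2) + g q.2 :=
      (hg.comp (continuous_rf e)).add (hg.comp continuous_snd)
    have h5 : Tendsto (fun q : ℝ × E => g (rf e q.1 q.2) + g q.2) (𝓝 (t₀, p))
      (𝓝 (g (rf e t₀ p) + g p)) := h4.tendsto (t₀, p)
    have h6 : g (rf e t₀ p) + g p < 0 := by
      rw [rf_of_mem he h3.symm]
      have := h2 p h3.symm
      linarith
    have h7 := h5.eventually (gt_mem_nhds h6)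
    filter_upwards [h7] with q hq hq'
    have := hq'.2.2
    linarith
  · have h4 : Continuous fun q : ℝ × E => ⟪e, q.2⟫ - q.1 := by fun_prop
    have h5 : Tendsto (fun q : ℝ × E => ⟪e, q.2⟫ - q.1) (𝓝 (t₀, p)) (𝓝 (⟪e, p⟫ - t₀)) :=
      h4.tendsto (t₀, p)
    have h6 := h5.eventually (gt_mem_nhds (show ⟪e, p⟫ - t₀ < 0 by linarith))
    filter_upwards [h6] with q hq hq'
    have := hq'.1
    linarith

/-- **Moving planes** in the direction `e`. -/
theorem PS.moving (h : PS lam μ₁ μ₂ β u v) (hlam : 0 < lam) (hμ₁ : 0 ≤ μ₁) (hμ₂ : 0 ≤ μ₂)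
    (hβ : 0 < β) {e : E} (he : ‖e‖ = 1) :
    ∃ t : ℝ, (∀ x, u (rf e t x) = u x) ∧ (∀ x, v (rf e t x) = v x) ∧ ∀ s, t ≤ s → Cmp u v e s := by
  -- constants
  obtain ⟨ε, hε0, hε₁, hε₂⟩ : ∃ ε : ℝ, 0 < ε ∧ (3 * μ₁ + 3 * β) * ε ^ 2 < lam ∧
      (3 * μ₂ + 3 * β) * ε ^ 2 < lam := by
    set A : ℝ := 3 * μ₁ + 3 * μ₂ + 3 * β with hA
    have hA0 : 0 < A := by positivity
    refine ⟨Real.sqrt (lam / (2 * A)), by positivity, ?_, ?_⟩ <;>
    · rw [Real.sq_sqrt (by positivity), mul_div_assoc', div_lt_iff₀ (by positivity)]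
      nlinarith
  obtain ⟨R₀, hsmall⟩ : ∃ R₀ : ℝ, ∀ x, R₀ < ‖x‖ → u x ≤ ε ∧ v x ≤ ε := by
    have h1 := (h.lu.eventually (ge_mem_nhds hε0)).and (h.lv.eventually (ge_mem_nhds hε0))
    obtain ⟨K, hK, hKc⟩ := mem_cocompact.1 h1
    obtain ⟨R, hR⟩ := hK.isBounded.subset_closedBall 0
    refine ⟨R, fun x hx => hKc fun hxK => ?_⟩
    have := hR hxK
    rw [mem_closedBall, dist_zero_right] at this
    linarith
  have hcrit : ∀ t, ¬ Cmp u v e t → ∃ x, t < ⟪e, x⟫ ∧ ‖x‖ ≤ R₀ ∧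
      ((df u e t x < 0 ∧ fderiv ℝ u (rf e t x) e + fderiv ℝ u x e = 0) ∨
       (df v e t x < 0 ∧ fderiv ℝ v (rf e t x) e + fderiv ℝ v x e = 0)) := by
    intro t ht
    apply h.crit hμ₁ hμ₂ hβ.le he hsmall hε₁ hε₂
    unfold Cmp at ht
    push Not at ht
    obtain ⟨x, hx, hx'⟩ := ht
    refine ⟨x, hx, ?_⟩
    by_contra hcon
    push Not at hcon
    exact absurd (hx' hcon.1) (not_lt.2 hcon.2)
  -- start
  set T : Set ℝ := {t | ∀ s, t ≤ s → Cmp u v e s} with hT
  have hTne : T.Nonempty := by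
    refine ⟨R₀, fun s hs => ?_⟩
    by_contra hcon
    obtain ⟨x, hx, hxR, -⟩ := hcrit s hcon
    have h1 : ⟪e, x⟫ ≤ ‖e‖ * ‖x‖ := real_inner_le_norm _ _
    rw [he, one_mul] at h1
    linarith
  have hTbdd : BddBelow T := by
    have h1 : ∀ᶠ x in cocompact E, u x < u 0 := h.lu.eventually (gt_mem_nhds (h.pu 0))
    obtain ⟨K, hK, hKc⟩ := mem_cocompact.1 h1
    obtain ⟨R, hR⟩ := hK.isBounded.subset_closedBall 0
    refine ⟨-(|R| + 1), fun t ht => ?_⟩
    by_contra hcon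
    push Not at hcon
    have ht0 : t < 0 := by linarith [abs_nonneg R]
    have h2 := (ht t le_rfl 0 (by rw [inner_zero_right]; exact ht0)).1
    unfold df at h2
    have h3 : u (rf e t 0) < u 0 := by
      apply hKc
      intro hK'
      have h4 := hR hK'
      rw [mem_closedBall, dist_zero_right, rf_apply he, inner_zero_right, zero_sub, zero_sub,
        norm_neg, norm_smul, he, mul_one, Real.norm_eq_abs, abs_of_pos (by linarith)] at h4
      have := le_abs_self R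
      linarith
    linarith
  set t₀ : ℝ := sInf T with ht₀
  have hafter : ∀ s, t₀ < s → Cmp u v e s := by
    intro s hs
    obtain ⟨t, ht, hts⟩ := exists_lt_of_csInf_lt hTne hs
    exact ht s hts.le
  have hrfc : ∀ x, Continuous fun s : ℝ => rf e s x := fun x =>
    (continuous_rf e).comp (continuous_id.prodMk continuous_const)
  have hat : Cmp u v e t₀ := by
    intro x hx
    have h1 : ∀ᶠ s in 𝓝[>] t₀, s < ⟪e, x⟫ :=
      (gt_mem_nhds hx).filter_mono nhdsWithin_le_nhds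
    constructor
    · have h2 : Tendsto (fun s => df u e s x) (𝓝[>] t₀) (𝓝 (df u e t₀ x)) := by
        have h3 : Continuous fun s => df u e s x :=
          (h.cu.continuous.comp (hrfc x)).sub continuous_const
        exact h3.continuousAt.tendsto.mono_left nhdsWithin_le_nhds
      refine ge_of_tendsto h2 ?_
      filter_upwards [h1, self_mem_nhdsWithin] with s hs hs'
      exact (hafter s hs' x hs).1
    · have h2 : Tendsto (fun s => df v e s x) (𝓝[>] t₀) (𝓝 (df v e t₀ x)) := by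
        have h3 : Continuous fun s => df v e s x :=
          (h.cv.continuous.comp (hrfc x)).sub continuous_const
        exact h3.continuousAt.tendsto.mono_left nhdsWithin_le_nhds
      refine ge_of_tendsto h2 ?_
      filter_upwards [h1, self_mem_nhdsWithin] with s hs hs'
      exact (hafter s hs' x hs).2
  have hat' : ∀ s, t₀ ≤ s → Cmp u v e s := by
    intro s hs
    rcases hs.lt_or_eq with h1 | h1
    · exact hafter s h1
    · rw [← h1]; exact hat
  refine ⟨t₀, ?_⟩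
  -- extension of the symmetry from the half space
  have hext : ∀ w : E → ℝ, (∀ x, t₀ < ⟪e, x⟫ → df w e t₀ x = 0) → ∀ x, w (rf e t₀ x) = w x := by
    intro w hw x
    rcases lt_trichotomy t₀ ⟪e, x⟫ with h1 | h1 | h1
    · have := hw x h1; unfold df at this; linarith
    · rw [rf_of_mem he h1.symm]
    · have h2 := hw (rf e t₀ x) (by rw [inner_rf he]; linarith)
      unfold df at h2
      rw [rf_rf he] at h2
      linarith
  -- vanishing of one difference implies the other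
  have hlink : ∀ (ν₁ ν₂ : ℝ) (f g : E → ℝ), PS lam ν₁ ν₂ β f g → Cmp f g e t₀ →
      (∀ x, t₀ < ⟪e, x⟫ → df f e t₀ x = 0) → ∀ x, t₀ < ⟪e, x⟫ → df g e t₀ x = 0 := by
    intro ν₁ ν₂ f g hfg hC hf x hx
    have hopen : IsOpen {x : E | t₀ < ⟪e, x⟫} := isOpen_lt continuous_const (by fun_prop)
    have h1 : df f e t₀ =ᶠ[𝓝 x] fun _ => 0 := by
      filter_upwards [hopen.mem_nhds hx] with y hy
      exact hf y hy
    have h2 : Δ (df f e t₀) x = 0 := by
      have h3 : Δ (df f e t₀) x = Δ (fun _ : E => (0 : ℝ)) x :=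
        (laplacian_congr_nhds h1).self_of_nhds
      rw [h3, lap_eq (stdOrthonormalBasis ℝ E)]
      apply Finset.sum_eq_zero
      intro i _
      unfold D2
      simp
    have h3 := hfg.eq_df e t₀ x
    rw [h2, hf x hx] at h3
    have h4 : f (rf e t₀ x) = f x := by have := hf x hx; unfold df at this; linarith
    rw [h4] at h3
    have h5 : f x * β * ((g (rf e t₀ x) - g x) * (g (rf e t₀ x) + g x)) = 0 := by
      linear_combination -h3
    have h6 := hfg.pu x
    have h7 := hfg.pv x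
    have h8 := hfg.pv (rf e t₀ x)
    have h9 : f x * β ≠ 0 := by positivity
    have h10 : g (rf e t₀ x) + g x ≠ 0 := by positivity
    rcases mul_eq_zero.1 h5 with h11 | h11
    · exact absurd h11 h9
    · rcases mul_eq_zero.1 h11 with h12 | h12
      · exact h12
      · exact absurd h12 h10
  have hat2 : Cmp v u e t₀ := fun x hx => (hat x hx).symm
  rcases h.alternative hlam hμ₁ hβ he hat with hu | ⟨hu1, hu2⟩
  · exact ⟨hext u hu, hext v (hlink _ _ u v h hat hu), hat'⟩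
  rcases h.symm.alternative hlam hμ₂ hβ he hat2 with hv | ⟨hv1, hv2⟩
  · exact ⟨hext u (hlink _ _ v u h.symm hat2 hv), hext v hv, hat'⟩
  exfalso
  have h1 := (no_bad he h.cu hu1 hu2 R₀).and (no_bad he h.cv hv1 hv2 R₀)
  obtain ⟨η, hη, hball⟩ := Metric.eventually_nhds_iff.1 h1
  have h2 : t₀ - η / 2 ∈ T := by
    intro s hs
    by_contra hcon
    have hs' : dist s t₀ < η := by
      have h3 : s < t₀ := by
        by_contra h4
        push Not at h4
        exact hcon (hat' s h4)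
      rw [Real.dist_eq, abs_lt]
      constructor <;> linarith
    obtain ⟨x, hx, hxR, hor⟩ := hcrit s hcon
    have h4 := hball hs'
    have hxb : x ∈ closedBall (0 : E) R₀ := by rw [mem_closedBall, dist_zero_right]; exact hxR
    rcases hor with h5 | h5
    · exact h4.1 x hxb ⟨hx, h5⟩
    · exact h4.2 x hxb ⟨hx, h5⟩
  have h3 : t₀ ≤ t₀ - η / 2 := csInf_le hTbdd h2
  linarith

end

end Pool.Agent.Helper32.Schr
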