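import Mathlib
import Pool.Agent.Helper32.Schr.Planes

/-!
# Radial symmetry and the radial equation
-/

open Filter Topology Set Metric InnerProductSpace
open scoped Laplacian RealInnerProductSpace

namespace Pool.Agent.Helper32.Schr

variable {E : Type*} [NormedAddCommGroup E] [InnerProductSpace ℝ E] [FiniteDimensional ℝ E]

/-- a positive function tending to zero has no period -/
theorem no_period {u : E → ℝ} (hpos : ∀ x, 0 < u x) (hlim : Tendsto u (cocompact E) (𝓝 0)) {d : E}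
    (hd : ∀ x, u (x + d) = u x) : d = 0 := by
  by_contra hne
  have h1 : ∀ n : ℕ, u ((n : ℝ) • d) = u 0 := by
    intro n
    induction n with
    | zero => simp
    | succ n ih =>
      rw [← ih, ← hd ((n : ℝ) • d)]
      congr 1
      push_cast
      rw [add_smul, one_smul]
  have h2 : Tendsto (fun n : ℕ => (n : ℝ) • d) atTop (cocompact E) := by
    rw [← Metric.cobounded_eq_cocompact, ← tendsto_norm_atTop_iff_cobounded]
    have h3 : (fun n : ℕ => ‖(n : ℝ) • d‖) = fun n : ℕ => (n : ℝ) * ‖d‖ := by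
      funext n
      rw [norm_smul, Real.norm_natCast]
    rw [h3]
    exact tendsto_natCast_atTop_atTop.atTop_mul_const (norm_pos_iff.2 hne)
  have h3 : Tendsto (fun n : ℕ => u ((n : ℝ) • d)) atTop (𝓝 0) := hlim.comp h2
  simp only [h1] at h3
  have h4 := tendsto_nhds_unique h3 tendsto_const_nhds
  exact (hpos 0).ne h4

theorem reflect_center {e x₀ x : E} (he : ‖e‖ = 1) (t : ℝ) :
    (2 : ℝ) • x₀ - rf e t ((2 : ℝ) • x₀ - x) = rf e (2 * ⟪e, x₀⟫ - t) x := by
  rw [rf_apply he, rf_apply he, inner_sub_right, inner_smul_right]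
  have : 2 * (⟪e, x⟫ - (2 * ⟪e, x₀⟫ - t)) = -(2 * (2 * ⟪e, x₀⟫ - ⟪e, x⟫ - t)) := by ring
  rw [this, neg_smul]
  abel

theorem rf_comp {e x : E} (he : ‖e‖ = 1) (s t : ℝ) :
    rf e s (rf e t x) = x + (2 * (s - t)) • e := by
  rw [rf_apply he s, inner_rf he, rf_apply he t, sub_sub, ← add_smul, sub_eq_add_neg, ← neg_smul]
  congr 2
  ring

theorem PS.center {lam μ₁ μ₂ β : ℝ} {u v : E → ℝ} (h : PS lam μ₁ μ₂ β u v) (hlam : 0 < lam)
    (hμ₁ : 0 ≤ μ₁) (hμ₂ : 0 ≤ μ₂) (hβ : 0 < β) :
    ∃ x₀ : E, ∀ x y, ‖x - x₀‖ = ‖y - x₀‖ → u x = u y ∧ v x = v y := by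
  classical
  have hmov := fun e : E => fun he : ‖e‖ = 1 => h.moving hlam hμ₁ hμ₂ hβ he
  set b := stdOrthonormalBasis ℝ E with hb
  have hmovb := fun i => hmov (b i) (b.norm_eq_one i)
  choose τ hτu hτv _ using hmovb
  set x₀ : E := ∑ i, τ i • b i with hx₀
  -- evenness
  have heven : ∀ w : E → ℝ, (∀ i x, w (rf (b i) (τ i) x) = w x) → ∀ x, w ((2 : ℝ) • x₀ - x) = w x := by
    intro w hw x
    have h1 : ∀ s : Finset (Fin (Module.finrank ℝ E)),
        w (x - ∑ i ∈ s, (2 * (⟪b i, x⟫ - τ i)) • b i) = w x := by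
      intro s
      induction s using Finset.induction_on with
      | empty => simp
      | insert j s hj ih =>
        rw [← ih, ← hw j (x - ∑ i ∈ s, (2 * (⟪b i, x⟫ - τ i)) • b i)]
        congr 1
        rw [rf_apply (b.norm_eq_one j), inner_sub_right, inner_sum, Finset.sum_insert hj]
        have h2 : ∑ i ∈ s, ⟪b j, (2 * (⟪b i, x⟫ - τ i)) • b i⟫ = 0 := by
          apply Finset.sum_eq_zero
          intro i hi
          have hij : j ≠ i := fun h => hj (h ▸ hi)
          rw [inner_smul_right, b.inner_eq_zero hij, mul_zero]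
        rw [h2, sub_zero]
        abel
    have h3 := h1 Finset.univ
    rw [← h3]
    congr 1
    have h4 : ∑ i, (2 * (⟪b i, x⟫ - τ i)) • b i = (2 : ℝ) • (∑ i, ⟪b i, x⟫ • b i) - (2 : ℝ) • x₀ := by
      rw [hx₀, Finset.smul_sum, Finset.smul_sum, ← Finset.sum_sub_distrib]
      refine Finset.sum_congr rfl fun i _ => ?_
      rw [smul_smul, smul_smul, ← sub_smul]
      congr 1
      ring
    rw [h4, b.sum_repr', two_smul, two_smul]
    abel
  have hevenu := heven u hτu
  have hevenv := heven v hτv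
  -- the hyperplanes pass through the centre
  have hpass : ∀ e : E, ‖e‖ = 1 → (∀ x, u (rf e ⟪e, x₀⟫ x) = u x) ∧ (∀ x, v (rf e ⟪e, x₀⟫ x) = v x) := by
    intro e he
    obtain ⟨t, htu, htv, _⟩ := hmov e he
    have h1 : ∀ x, u (rf e (2 * ⟪e, x₀⟫ - t) x) = u x := by
      intro x
      rw [← reflect_center he, hevenu, htu, hevenu]
    have h2 : ∀ x, u (x + (2 * ((2 * ⟪e, x₀⟫ - t) - t)) • e) = u x := by
      intro x
      rw [← rf_comp he, h1, htu]
    have h3 := no_period h.pu h.lu h2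
    have he0 : e ≠ 0 := by
      rintro rfl
      simp at he
    rcases smul_eq_zero.1 h3 with h4 | h4
    · have h5 : t = ⟪e, x₀⟫ := by linarith
      rw [← h5]
      exact ⟨htu, htv⟩
    · exact absurd h4 he0
  refine ⟨x₀, fun x y hxy => ?_⟩
  by_cases hne : x = y
  · rw [hne]; exact ⟨rfl, rfl⟩
  have hne' : x - y ≠ 0 := sub_ne_zero.2 hne
  set e : E := (‖x - y‖)⁻¹ • (x - y) with he
  have he1 : ‖e‖ = 1 := by
    rw [he, norm_smul, norm_inv, norm_norm, inv_mul_cancel₀ (norm_ne_zero_iff.2 hne')]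
  have hrf : rf e ⟪e, x₀⟫ x = y := by
    rw [rf_apply he1, ← inner_sub_right]
    have h1 : 2 * ⟪e, x - x₀⟫ = ‖x - y‖ := by
      rw [he, inner_smul_left]
      have h2 : 2 * ⟪x - y, x - x₀⟫ = ‖x - y‖ ^ 2 := by
        have h3 : x - y = (x - x₀) - (y - x₀) := by abel
        rw [h3, @norm_sub_sq_real, inner_sub_left, real_inner_self_eq_norm_sq, ← hxy,
          real_inner_comm]
        ring
      have h4 : ‖x - y‖ ≠ 0 := norm_ne_zero_iff.2 hne'
      simp only [conj_trivial]
      field_simp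
      linarith
    rw [h1, he, smul_smul, mul_inv_cancel₀ (norm_ne_zero_iff.2 hne'), one_smul]
    abel
  have := hpass e he1
  rw [← hrf]
  exact ⟨(this.1 x).symm, (this.2 x).symm⟩

/-- Second derivative of a radial function in a direction orthogonal to the radius. -/
theorem D2_orth {w : E → ℝ} (hw : ContDiff ℝ 2 w) {x₀ : E}
    (hrad : ∀ x y, ‖x - x₀‖ = ‖y - x₀‖ → w x = w y) {e f : E} (he : ‖e‖ = 1) (hf : ‖f‖ = 1)
    (hef : ⟪e, f⟫ = 0) {r : ℝ} (hr : 0 < r) :
    D2 w (x₀ + r • e) f = fderiv ℝ w (x₀ + r • e) e / r := by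
  apply D2_unique hw
  set s : ℝ → ℝ := fun t => Real.sqrt (r ^ 2 + t ^ 2) with hs
  have hpos : ∀ t : ℝ, 0 < r ^ 2 + t ^ 2 := fun t => by positivity
  have hs0 : s 0 = r := by simp [hs, Real.sqrt_sq hr.le]
  have hspos : ∀ t, 0 < s t := fun t => Real.sqrt_pos.2 (hpos t)
  have hsd : ∀ t, HasDerivAt s (t / s t) t := by
    intro t
    have h1 : HasDerivAt (fun t : ℝ => r ^ 2 + t ^ 2) (2 * t) t := by
      have := ((hasDerivAt_id t).fun_pow 2).const_add (r ^ 2)
      simpa using this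
    have h2 := h1.sqrt (hpos t).ne'
    refine h2.congr_deriv ?_
    have := (hspos t).ne'
    simp only [hs] at this ⊢
    field_simp
  have heq : ∀ t : ℝ, w (x₀ + r • e + t • f) = w (x₀ + s t • e) := by
    intro t
    apply hrad
    have h1 : x₀ + r • e + t • f - x₀ = r • e + t • f := by abel
    have h2 : x₀ + s t • e - x₀ = s t • e := by abel
    rw [h1, h2, norm_smul, he, mul_one, Real.norm_eq_abs, abs_of_pos (hspos t)]
    have h3 : ‖r • e + t • f‖ ^ 2 = r ^ 2 + t ^ 2 := by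
      rw [@norm_add_sq_real, inner_smul_left, inner_smul_right, hef, norm_smul, norm_smul, he, hf]
      simp
    have h4 : ‖r • e + t • f‖ = Real.sqrt (‖r • e + t • f‖ ^ 2) := (Real.sqrt_sq (norm_nonneg _)).symm
    rw [h4, h3]
  have hd : ∀ t : ℝ, fderiv ℝ w (x₀ + r • e + t • f) f =
      t * (fderiv ℝ w (x₀ + s t • e) e / s t) := by
    intro t
    have h1 := line_deriv hw (x₀ + r • e) f t
    have h2 := (line_deriv hw x₀ e (s t)).comp t (hsd t)
    have h3 : (fun t : ℝ => w (x₀ + r • e + t • f)) = (fun t : ℝ => w (x₀ + t • e)) ∘ s :=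
      funext heq
    rw [h3] at h1
    have h4 := h1.unique h2
    rw [h4]
    ring
  simp only [hd]
  have hcont : ContinuousAt (fun t => fderiv ℝ w (x₀ + s t • e) e / s t) 0 := by
    have hc1 : Continuous (fun x => fderiv ℝ w x e) :=
      (hw.continuous_fderiv (by norm_num)).clm_apply continuous_const
    have hc2 : ContinuousAt s 0 := (hsd 0).continuousAt
    have hc3 : ContinuousAt (fun t => x₀ + s t • e) 0 := by fun_prop
    exact (hc1.continuousAt.comp hc3).div hc2 (hspos 0).ne'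
  have hfin : HasDerivAt (fun t : ℝ => t * (fderiv ℝ w (x₀ + s t • e) e / s t))
      (fderiv ℝ w (x₀ + s 0 • e) e / s 0) 0 := by
    rw [hasDerivAt_iff_tendsto_slope]
    have h1 := hcont.tendsto.mono_left (nhdsWithin_le_nhds (s := {(0 : ℝ)}ᶜ))
    refine h1.congr' ?_
    filter_upwards [self_mem_nhdsWithin] with t ht
    have ht' : t ≠ 0 := ht
    rw [slope_def_field, zero_mul, sub_zero, sub_zero]
    field_simp
  rw [hs0] at hfin
  exact hfin

/-- The Laplacian of a radial function. -/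
theorem lap_radial [Nontrivial E] {w : E → ℝ} (hw : ContDiff ℝ 2 w) {x₀ : E}
    (hrad : ∀ x y, ‖x - x₀‖ = ‖y - x₀‖ → w x = w y) {e : E} (he : ‖e‖ = 1) {r : ℝ} (hr : 0 < r) :
    Δ w (x₀ + r • e) = D2 w (x₀ + r • e) e +
      ((Module.finrank ℝ E : ℝ) - 1) / r * fderiv ℝ w (x₀ + r • e) e := by
  classical
  -- an orthonormal basis containing `e`
  have hon : Orthonormal ℝ (fun x : ({e} : Set E) => (x : E)) := by
    constructor
    · rintro ⟨x, hx⟩
      rw [mem_singleton_iff] at hx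
      subst hx
      exact he
    · rintro ⟨x, hx⟩ ⟨y, hy⟩ hxy
      rw [mem_singleton_iff] at hx hy
      exact absurd (Subtype.ext (hx.trans hy.symm)) hxy
  obtain ⟨S, b, hS, hb⟩ := hon.exists_orthonormalBasis_extension
  have heS : e ∈ S := by
    have := hS (mem_singleton e)
    exact_mod_cast this
  rw [lap_eq b]
  have hbi : ∀ i : S, b i = (i : E) := fun i => by rw [hb]
  rw [← Finset.add_sum_erase _ _ (Finset.mem_univ (⟨e, heS⟩ : S))]
  have h1 : b ⟨e, heS⟩ = e := hbi _
  rw [h1]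
  congr 1
  have h2 : ∀ i ∈ Finset.univ.erase (⟨e, heS⟩ : S), D2 w (x₀ + r • e) (b i) =
      fderiv ℝ w (x₀ + r • e) e / r := by
    intro i hi
    have hne : (⟨e, heS⟩ : S) ≠ i := (Finset.ne_of_mem_erase hi).symm
    apply D2_orth hw hrad he (b.norm_eq_one i) _ hr
    rw [← h1]
    exact b.inner_eq_zero hne
  rw [Finset.sum_congr rfl h2, Finset.sum_const, Finset.card_erase_of_mem (Finset.mem_univ _),
    nsmul_eq_mul, Finset.card_univ]
  have h3 : Fintype.card S = Module.finrank ℝ E := (Module.finrank_eq_card_basis b.toBasis).symm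
  rw [h3]
  have h4 : 1 ≤ Module.finrank ℝ E := Module.finrank_pos
  rw [Nat.cast_sub h4]
  push_cast
  field_simp

end Pool.Agent.Helper32.Schr
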