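import Mathlib
import Pool.Agent.Helper32.Schr.Radial

/-!
# From the partial differential equations to the radial system
-/

open Filter Topology Set Metric InnerProductSpace
open scoped Laplacian RealInnerProductSpace

namespace Pool.Agent.Helper32.Schr

variable {E : Type*} [NormedAddCommGroup E] [InnerProductSpace ℝ E] [FiniteDimensional ℝ E]

/-- The radial profile satisfies the radial equation. -/
theorem profile_deriv [Nontrivial E] {w : E → ℝ} (hw : ContDiff ℝ 2 w) {x₀ : E}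
    (hrad : ∀ x y, ‖x - x₀‖ = ‖y - x₀‖ → w x = w y) {e : E} (he : ‖e‖ = 1) {r : ℝ} (hr : 0 < r) :
    HasDerivAt (fun r : ℝ => w (x₀ + r • e)) (fderiv ℝ w (x₀ + r • e) e) r ∧
    HasDerivAt (fun r : ℝ => fderiv ℝ w (x₀ + r • e) e)
      (-(((Module.finrank ℝ E : ℝ) - 1) / r) * fderiv ℝ w (x₀ + r • e) e + Δ w (x₀ + r • e)) r := by
  refine ⟨line_deriv hw x₀ e r, (line_deriv2 hw x₀ e r).congr_deriv ?_⟩
  rw [lap_radial hw hrad he hr]
  ring

theorem profile_lim {w : E → ℝ} (hlim : Tendsto w (cocompact E) (𝓝 0)) (x₀ : E) {e : E}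
    (he : ‖e‖ = 1) : Tendsto (fun r : ℝ => w (x₀ + r • e)) atTop (𝓝 0) := by
  refine hlim.comp ?_
  rw [← Metric.cobounded_eq_cocompact, ← tendsto_norm_atTop_iff_cobounded]
  have h1 : Tendsto (fun r : ℝ => r - ‖x₀‖) atTop atTop :=
    tendsto_atTop_add_const_right _ _ tendsto_id
  refine tendsto_atTop_mono' _ ?_ h1
  filter_upwards [eventually_ge_atTop 0] with r hr
  have h2 : ‖r • e‖ = r := by rw [norm_smul, he, mul_one, Real.norm_eq_abs, abs_of_nonneg hr]
  have h3 : ‖r • e‖ ≤ ‖x₀ + r • e‖ + ‖x₀‖ := by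
    have : r • e = (x₀ + r • e) - x₀ := by abel
    calc ‖r • e‖ = ‖(x₀ + r • e) - x₀‖ := by rw [← this]
      _ ≤ _ := norm_sub_le _ _
  linarith

theorem profile_bdd {w : E → ℝ} (hw : ContDiff ℝ 2 w) (hpos : ∀ x, 0 < w x) (x₀ e : E) :
    ∃ K δ : ℝ, 0 < δ ∧ ∀ r : ℝ, 0 < r → r ≤ 1 → |w (x₀ + r • e)| ≤ K ∧
      |fderiv ℝ w (x₀ + r • e) e| ≤ K ∧ δ ≤ w (x₀ + r • e) := by
  have hc0 : Continuous fun r : ℝ => x₀ + r • e := by fun_prop
  have hc1 : Continuous fun r : ℝ => w (x₀ + r • e) := hw.continuous.comp hc0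
  have hc2 : Continuous fun r : ℝ => fderiv ℝ w (x₀ + r • e) e :=
    ((hw.continuous_fderiv (by norm_num)).clm_apply continuous_const).comp hc0
  obtain ⟨K₁, hK₁⟩ := (isCompact_Icc (a := (0 : ℝ)) (b := 1)).exists_bound_of_continuousOn
    hc1.continuousOn
  obtain ⟨K₂, hK₂⟩ := (isCompact_Icc (a := (0 : ℝ)) (b := 1)).exists_bound_of_continuousOn
    hc2.continuousOn
  obtain ⟨t, ht, hmin⟩ := (isCompact_Icc (a := (0 : ℝ)) (b := 1)).exists_isMinOn
    ⟨0, by simp⟩ hc1.continuousOn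
  refine ⟨max K₁ K₂, w (x₀ + t • e), hpos _, fun r h1 h2 => ?_⟩
  have hr : r ∈ Icc (0 : ℝ) 1 := ⟨h1.le, h2⟩
  exact ⟨(hK₁ r hr).trans (le_max_left _ _), (hK₂ r hr).trans (le_max_right _ _), hmin hr⟩

/-- Equality of two radial functions from equality of the profiles. -/
theorem eq_of_profile [Nontrivial E] {w₁ w₂ : E → ℝ} (h₁ : Continuous w₁) (h₂ : Continuous w₂)
    {x₀ : E} (hr₁ : ∀ x y, ‖x - x₀‖ = ‖y - x₀‖ → w₁ x = w₁ y)
    (hr₂ : ∀ x y, ‖x - x₀‖ = ‖y - x₀‖ → w₂ x = w₂ y) {e : E} (he : ‖e‖ = 1)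
    (h : ∀ r : ℝ, 0 < r → w₁ (x₀ + r • e) = w₂ (x₀ + r • e)) : ∀ x, w₁ x = w₂ x := by
  have hne : ∀ x, x ≠ x₀ → w₁ x = w₂ x := by
    intro x hx
    have hr : 0 < ‖x - x₀‖ := norm_pos_iff.2 (sub_ne_zero.2 hx)
    have h3 : ‖x - x₀‖ = ‖(x₀ + ‖x - x₀‖ • e) - x₀‖ := by
      rw [add_sub_cancel_left, norm_smul, he, mul_one, norm_norm]
    rw [hr₁ x _ h3, hr₂ x _ h3]
    exact h _ hr
  intro x
  by_cases hx : x = x₀
  · subst hx
    -- by continuity
    have hc : Continuous fun r : ℝ => x + r • e := by fun_prop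
    have h4 : Tendsto (fun r : ℝ => w₁ (x + r • e)) (𝓝[>] 0) (𝓝 (w₁ x)) := by
      have := (h₁.comp hc).tendsto 0
      simp only [Function.comp_def, zero_smul, add_zero] at this
      exact this.mono_left nhdsWithin_le_nhds
    have h5 : Tendsto (fun r : ℝ => w₂ (x + r • e)) (𝓝[>] 0) (𝓝 (w₂ x)) := by
      have := (h₂.comp hc).tendsto 0
      simp only [Function.comp_def, zero_smul, add_zero] at this
      exact this.mono_left nhdsWithin_le_nhds
    refine tendsto_nhds_unique h4 (h5.congr' ?_)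
    filter_upwards [self_mem_nhdsWithin] with r hr
    exact (h r hr).symm
  · exact hne x hx

/-- The pair of profiles of two radial functions. -/
theorem good_of_radial [Nontrivial E] {lam a b : ℝ} {f g : E → ℝ} (hf : ContDiff ℝ 2 f)
    (hg : ContDiff ℝ 2 g) (pf : ∀ x, 0 < f x) (pg : ∀ x, 0 < g x)
    (lf : Tendsto f (cocompact E) (𝓝 0)) (lg : Tendsto g (cocompact E) (𝓝 0)) {x₀ : E}
    (rf : ∀ x y, ‖x - x₀‖ = ‖y - x₀‖ → f x = f y) (rg : ∀ x y, ‖x - x₀‖ = ‖y - x₀‖ → g x = g y)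
    (ef : ∀ x, -Δ f x + lam * f x = (a * f x ^ 2 + (1 - a) * g x ^ 2) * f x)
    (eg : ∀ x, -Δ g x + lam * g x = (b * g x ^ 2 + (1 - b) * f x ^ 2) * g x) {e : E}
    (he : ‖e‖ = 1) :
    Good ((Module.finrank ℝ E : ℝ) - 1) lam a b (fun r => f (x₀ + r • e))
      (fun r => fderiv ℝ f (x₀ + r • e) e) (fun r => g (x₀ + r • e))
      (fun r => fderiv ℝ g (x₀ + r • e) e) := by
  obtain ⟨K, δ, hδ, hK⟩ := profile_bdd hf pf x₀ e
  obtain ⟨K', δ', hδ', hK'⟩ := profile_bdd hg pg x₀ e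
  refine ⟨⟨fun r hr => (profile_deriv hf rf he hr).1, fun r hr => (profile_deriv hg rg he hr).1,
    fun r hr => (profile_deriv hf rf he hr).2.congr_deriv ?_,
    fun r hr => (profile_deriv hg rg he hr).2.congr_deriv ?_, fun r _ => pf _, fun r _ => pg _⟩,
    profile_lim lf x₀ he, profile_lim lg x₀ he, ⟨max K K', fun r h1 h2 => ?_⟩,
    ⟨min δ δ', lt_min hδ hδ', fun r h1 h2 => ?_⟩⟩
  · have := ef (x₀ + r • e)
    linear_combination -this
  · have := eg (x₀ + r • e)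
    linear_combination -this
  · exact ⟨(hK r h1 h2).1.trans (le_max_left _ _), (hK r h1 h2).2.1.trans (le_max_left _ _),
      (hK' r h1 h2).1.trans (le_max_right _ _), (hK' r h1 h2).2.1.trans (le_max_right _ _)⟩
  · exact ⟨(min_le_left _ _).trans (hK r h1 h2).2.2, (min_le_right _ _).trans (hK' r h1 h2).2.2⟩

/-- Positive radial solutions of the scalar equation (ground states). -/
structure GS (lam : ℝ) (w : E → ℝ) : Prop where
  smooth : ContDiff ℝ 2 w
  pos : ∀ x, 0 < w x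
  radial : ∀ x y, ‖x‖ = ‖y‖ → w x = w y
  lim : Tendsto w (cocompact E) (𝓝 0)
  eq : ∀ x, -Δ w x + lam * w x = w x ^ 3

/-- Uniqueness of the ground state of the scalar equation. -/
theorem GS.unique {lam : ℝ} (hlam : 0 < lam)
    (hdim : Module.finrank ℝ E = 2 ∨ Module.finrank ℝ E = 3) {f g : E → ℝ} (hf : GS lam f)
    (hg : GS lam g) : f = g := by
  have hnt : Nontrivial E := Module.nontrivial_of_finrank_pos (R := ℝ) (by omega)
  obtain ⟨e, he⟩ := exists_norm_eq E (zero_le_one (α := ℝ))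
  have hm : (Module.finrank ℝ E : ℝ) - 1 = 1 ∨ (Module.finrank ℝ E : ℝ) - 1 = 2 := by
    rcases hdim with h | h
    · left; rw [h]; norm_num
    · right; rw [h]; norm_num
  have rf : ∀ x y, ‖x - (0 : E)‖ = ‖y - 0‖ → f x = f y := fun x y hxy => hf.radial x y (by simpa using hxy)
  have rg : ∀ x y, ‖x - (0 : E)‖ = ‖y - 0‖ → g x = g y := fun x y hxy => hg.radial x y (by simpa using hxy)
  have h1 := good_of_radial (a := 1) (b := 1) (lam := lam) hf.smooth hg.smooth hf.pos hg.pos hf.lim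
    hg.lim rf rg (fun x => by rw [hf.eq]; ring) (fun x => by rw [hg.eq]; ring) he
  have h2 := h1.eq_scalar hm hlam
  exact funext (eq_of_profile hf.smooth.continuous hg.smooth.continuous rf rg he h2)

theorem laplacian_const_mul {w : E → ℝ} (h : ContDiff ℝ 2 w) (c : ℝ) (x : E) :
    Δ (fun x => w x * c) x = Δ w x * c := by
  have h1 : (fun x => w x * c) = fun x => c * w x := by funext x; ring
  rw [h1, lap_const_mul h]
  ring

/-- **Main theorem**, in a Euclidean space of dimension 2 or 3. -/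
theorem main {lam μ₁ μ₂ β : ℝ} (hdim : Module.finrank ℝ E = 2 ∨ Module.finrank ℝ E = 3)
    (hlam : 0 < lam) (hβ : 0 < β) (hβ₁ : β < μ₁) (hβ₂ : β < μ₂) {u v : E → ℝ}
    (h : PS lam μ₁ μ₂ β u v) :
    ∃ w : E → ℝ, GS lam w ∧ (∀ w', GS lam w' → w' = w) ∧ ∃ x₀ : E, ∀ x,
      u x = Real.sqrt ((μ₂ - β) / (μ₁ * μ₂ - β ^ 2)) * w (x - x₀) ∧
      v x = Real.sqrt ((μ₁ - β) / (μ₁ * μ₂ - β ^ 2)) * w (x - x₀) := by
  have hnt : Nontrivial E := Module.nontrivial_of_finrank_pos (R := ℝ) (by omega)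
  obtain ⟨e, he⟩ := exists_norm_eq E (zero_le_one (α := ℝ))
  have hm : (Module.finrank ℝ E : ℝ) - 1 = 1 ∨ (Module.finrank ℝ E : ℝ) - 1 = 2 := by
    rcases hdim with h | h
    · left; rw [h]; norm_num
    · right; rw [h]; norm_num
  have hμ₁ : 0 < μ₁ := hβ.trans hβ₁
  have hμ₂ : 0 < μ₂ := hβ.trans hβ₂
  have hD : 0 < μ₁ * μ₂ - β ^ 2 := by nlinarith
  set k : ℝ := (μ₂ - β) / (μ₁ * μ₂ - β ^ 2) with hk
  set l : ℝ := (μ₁ - β) / (μ₁ * μ₂ - β ^ 2) with hl
  have hk0 : 0 < k := div_pos (by linarith) hD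
  have hl0 : 0 < l := div_pos (by linarith) hD
  have hkl₁ : μ₁ * k + β * l = 1 := by
    rw [hk, hl, ← mul_div_assoc, ← mul_div_assoc, ← add_div, div_eq_one_iff_eq hD.ne']; ring
  have hkl₂ : μ₂ * l + β * k = 1 := by
    rw [hk, hl, ← mul_div_assoc, ← mul_div_assoc, ← add_div, div_eq_one_iff_eq hD.ne']; ring
  have hsk : 0 < Real.sqrt k := Real.sqrt_pos.2 hk0
  have hsl : 0 < Real.sqrt l := Real.sqrt_pos.2 hl0
  have hsk2 : Real.sqrt k ^ 2 = k := Real.sq_sqrt hk0.le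
  have hsl2 : Real.sqrt l ^ 2 = l := Real.sq_sqrt hl0.le
  obtain ⟨x₀, hx₀⟩ := h.center hlam hμ₁.le hμ₂.le hβ
  set p : ℝ := (Real.sqrt k)⁻¹ with hp
  set q : ℝ := (Real.sqrt l)⁻¹ with hq
  have hp0 : 0 < p := by positivity
  have hq0 : 0 < q := by positivity
  have hkp : k * p ^ 2 = 1 := by rw [hp, inv_pow, hsk2]; field_simp
  have hlq : l * q ^ 2 = 1 := by rw [hq, inv_pow, hsl2]; field_simp
  set f : E → ℝ := fun x => u x * p with hf
  set g : E → ℝ := fun x => v x * q with hg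
  have hfu : ∀ x, u x ^ 2 = k * f x ^ 2 := by
    intro x; simp only [hf]; rw [mul_pow]; linear_combination -(u x ^ 2) * hkp
  have hgv : ∀ x, v x ^ 2 = l * g x ^ 2 := by
    intro x; simp only [hg]; rw [mul_pow]; linear_combination -(v x ^ 2) * hlq
  have ef : ∀ x, -Δ f x + lam * f x = (μ₁ * k * f x ^ 2 + (1 - μ₁ * k) * g x ^ 2) * f x := by
    intro x
    have h1 : Δ f x = Δ u x * p := laplacian_const_mul h.cu p x
    have h2 := h.eu x
    have h3 : 1 - μ₁ * k = β * l := by linarith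
    rw [h1, h3]
    have h4 : -(Δ u x * p) + lam * f x = (μ₁ * u x ^ 2 + β * v x ^ 2) * f x := by
      simp only [hf]
      linear_combination p * h2
    rw [h4, hfu, hgv]
    ring
  have eg : ∀ x, -Δ g x + lam * g x = (μ₂ * l * g x ^ 2 + (1 - μ₂ * l) * f x ^ 2) * g x := by
    intro x
    have h1 : Δ g x = Δ v x * q := laplacian_const_mul h.cv q x
    have h2 := h.ev x
    have h3 : 1 - μ₂ * l = β * k := by linarith
    rw [h1, h3]
    have h4 : -(Δ v x * q) + lam * g x = (μ₂ * v x ^ 2 + β * u x ^ 2) * g x := by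
      simp only [hg]
      linear_combination q * h2
    rw [h4, hfu, hgv]
    ring
  have hcf : ContDiff ℝ 2 f := h.cu.mul contDiff_const
  have hcg : ContDiff ℝ 2 g := h.cv.mul contDiff_const
  have rf : ∀ x y, ‖x - x₀‖ = ‖y - x₀‖ → f x = f y := fun x y hxy => by
    simp only [hf]; rw [(hx₀ x y hxy).1]
  have rg : ∀ x y, ‖x - x₀‖ = ‖y - x₀‖ → g x = g y := fun x y hxy => by
    simp only [hg]; rw [(hx₀ x y hxy).2]
  have pf : ∀ x, 0 < f x := fun x => mul_pos (h.pu x) hp0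
  have pg : ∀ x, 0 < g x := fun x => mul_pos (h.pv x) hq0
  have lf : Tendsto f (cocompact E) (𝓝 0) := by simpa [hf] using h.lu.mul_const p
  have lg : Tendsto g (cocompact E) (𝓝 0) := by simpa [hg] using h.lv.mul_const q
  have hgood := good_of_radial (a := μ₁ * k) (b := μ₂ * l) (lam := lam) hcf hcg pf pg lf lg rf rg ef
    eg he
  have ha : μ₁ * k < 1 := by have := mul_pos hβ hl0; linarith
  have hb : μ₂ * l < 1 := by have := mul_pos hβ hk0; linarith
  have hc : 0 < μ₁ * k + μ₂ * l - 1 := by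
    have h1 : μ₁ * k + μ₂ * l - 1 = (μ₁ - β) * (μ₂ - β) / (μ₁ * μ₂ - β ^ 2) := by
      rw [hk, hl]; field_simp; ring
    rw [h1]
    exact div_pos (mul_pos (by linarith) (by linarith)) hD
  have hfg : ∀ x, f x = g x :=
    eq_of_profile hcf.continuous hcg.continuous rf rg he (hgood.eq_coupled hm hlam ha hb hc)
  set w : E → ℝ := fun x => f (x + x₀) with hw
  have hwGS : GS lam w := by
    refine ⟨?_, fun x => pf _, ?_, ?_, ?_⟩
    · exact hcf.comp (contDiff_id.add contDiff_const)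
    · intro x y hxy
      apply rf
      rw [add_sub_cancel_right, add_sub_cancel_right]
      exact hxy
    · refine lf.comp ?_
      have h2 : Tendsto (Homeomorph.addRight x₀) (cocompact E) (cocompact E) := by
        rw [Tendsto, (Homeomorph.addRight x₀).map_cocompact]
      exact h2
    · intro x
      have h1 : Δ w x = Δ f (x + x₀) := lap_comp_isom (LinearIsometryEquiv.refl ℝ E) x₀ hcf x
      rw [h1]
      have h2 := ef (x + x₀)
      rw [← hfg] at h2
      rw [show lam * w x = lam * f (x + x₀) from rfl, h2]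
      simp only [hw]
      ring
  refine ⟨w, hwGS, fun w' hw' => GS.unique hlam hdim hw' hwGS, x₀, fun x => ?_⟩
  have h1 : w (x - x₀) = f x := by simp only [hw, sub_add_cancel]
  rw [h1]
  constructor
  · simp only [hf, hp]
    field_simp
  · rw [hfg]
    simp only [hg, hq]
    field_simp

end Pool.Agent.Helper32.Schr
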